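import Mathlib

set_option autoImplicit false

/-!
A CIS graph on 91 vertices with independence number 30 and clique number 3.

Take the triangle-free circulant graph on `Z/13` with connection set `{1, 5, 8, 12}` (independence
number 4), replace every vertex by 5 pairwise non-adjacent twins, and for each of the 26 edges of the
circulant graph add one vertex adjacent to the twins of both ends.
-/

namespace Pool.Agent.Results.MP_703660_co.CISCounterexample

/-- every maximal clique and every maximal stable set have a common vertex -/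
def IsCIS {V : Type} (G : SimpleGraph V) : Prop :=
  ∀ K S : Set V, Maximal G.IsClique K → Maximal G.IsIndepSet S → (K ∩ S).Nonempty

/-- adjacency in the circulant graph -/
def adj (x y : Fin 13) : Bool := y == x + 1 || y == x + 5 || y == x + 8 || y == x + 12

/-- the second end of an edge; the edge `(x, b)` joins `x` with `x + 1` or `x + 5` -/
def other (e : Fin 13 × Bool) : Fin 13 := if e.2 then e.1 + 5 else e.1 + 1

/-- incidence -/
def inc (x : Fin 13) (e : Fin 13 × Bool) : Bool := x == e.1 || x == other e

/-- the vertex set -/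
abbrev V : Type := (Fin 13 × Fin 5) ⊕ (Fin 13 × Bool)

/-- adjacency -/
def A : V → V → Bool
  | Sum.inl p, Sum.inl q => adj p.1 q.1
  | Sum.inl p, Sum.inr e => inc p.1 e
  | Sum.inr e, Sum.inl p => inc p.1 e
  | Sum.inr _, Sum.inr _ => false

theorem adj_symm : ∀ x y : Fin 13, adj x y = adj y x := by decide
theorem adj_irrefl : ∀ x : Fin 13, adj x x = false := by decide
theorem adj_tri : ∀ x y : Fin 13, adj x y = true → ∀ z, adj y z = true → adj x z = false := by
  decide
theorem adj_edge : ∀ x y : Fin 13, adj x y = true →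
    ∃ e : Fin 13 × Bool, inc x e = true ∧ inc y e = true := by decide
theorem inc_adj : ∀ e : Fin 13 × Bool, adj e.1 (other e) = true := by decide
theorem edge_at (x : Fin 13) : inc x (x, true) = true := by simp [inc]

/-- the graph -/
def G : SimpleGraph V where
  Adj u v := A u v = true
  symm := by
    constructor
    rintro (p | e) (q | f) h
    · simpa [A, adj_symm q.1 p.1] using h
    · simpa [A] using h
    · simpa [A] using h
    · simp [A] at h
  loopless := by
    constructor
    rintro (p | e) h
    · simp [A, adj_irrefl] at h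
    · simp [A] at h

theorem G_ll (p q : Fin 13 × Fin 5) : G.Adj (Sum.inl p) (Sum.inl q) ↔ adj p.1 q.1 = true := Iff.rfl
theorem G_lr (p : Fin 13 × Fin 5) (e : Fin 13 × Bool) :
    G.Adj (Sum.inl p) (Sum.inr e) ↔ inc p.1 e = true := Iff.rfl
theorem G_rl (p : Fin 13 × Fin 5) (e : Fin 13 × Bool) :
    G.Adj (Sum.inr e) (Sum.inl p) ↔ inc p.1 e = true := Iff.rfl
theorem G_rr (e f : Fin 13 × Bool) : ¬ G.Adj (Sum.inr e) (Sum.inr f) := by
  intro h
  simp [G, A] at h

/-- adding a vertex adjacent to all others of a clique -/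
theorem clique_insert {W : Type} {H : SimpleGraph W} {K : Set W} (hK : Maximal H.IsClique K) {v : W}
    (h : ∀ u ∈ K, u ≠ v → H.Adj v u) : v ∈ K := by
  have h1 : H.IsClique (insert v K) := by
    rw [SimpleGraph.isClique_insert]
    exact ⟨hK.1, fun u hu hne => h u hu (Ne.symm hne)⟩
  exact hK.2 h1 (Set.subset_insert v K) (Set.mem_insert v K)

theorem indep_insert {W : Type} {H : SimpleGraph W} {S : Set W} (hS : Maximal H.IsIndepSet S)
    {v : W} (h : ∀ u ∈ S, ¬ H.Adj v u) : v ∈ S := by
  have h1 : H.IsIndepSet (insert v S) := by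
    intro a ha b hb hab hadj
    rcases Set.mem_insert_iff.1 ha with rfl | ha'
    · rcases Set.mem_insert_iff.1 hb with rfl | hb
      · exact hab rfl
      · exact h b hb hadj
    · rcases Set.mem_insert_iff.1 hb with rfl | hb
      · exact h a ha' hadj.symm
      · exact hS.1 ha' hb hab hadj
  exact hS.2 h1 (Set.subset_insert v S) (Set.mem_insert v S)

/-- every maximal clique contains an edge vertex -/
theorem exists_edge {K : Set V} (hK : Maximal G.IsClique K) : ∃ e, Sum.inr e ∈ K := by
  by_contra hcon
  push Not at hcon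
  have hleft : ∀ u ∈ K, ∃ p, u = Sum.inl p := by
    rintro (p | e) hu
    · exact ⟨p, rfl⟩
    · exact absurd hu (hcon e)
  by_cases h2 : ∃ p q : Fin 13 × Fin 5, Sum.inl p ∈ K ∧ Sum.inl q ∈ K ∧ p ≠ q
  · obtain ⟨p, q, hp, hq, hpq⟩ := h2
    have hadj : adj p.1 q.1 = true :=
      hK.1 hp hq (fun h => hpq (Sum.inl.inj h))
    obtain ⟨e, hpe, hqe⟩ := adj_edge _ _ hadj
    refine hcon e (clique_insert hK fun u hu _ => ?_)
    obtain ⟨r, rfl⟩ := hleft u hu
    rw [G_rl]
    by_cases hrp : r = p
    · rw [hrp]; exact hpe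
    by_cases hrq : r = q
    · rw [hrq]; exact hqe
    have h3 : adj q.1 r.1 = true := hK.1 hq hu (fun h => hrq (Sum.inl.inj h).symm)
    have h4 : adj p.1 r.1 = true := hK.1 hp hu (fun h => hrp (Sum.inl.inj h).symm)
    rw [adj_tri _ _ hadj _ h3] at h4
    exact absurd h4 (by decide)
  · push Not at h2
    rcases Set.eq_empty_or_nonempty K with hKe | ⟨u, hu⟩
    · refine hcon (0, true) (clique_insert hK fun u hu _ => ?_)
      rw [hKe] at hu
      exact absurd hu (Set.notMem_empty u)
    · obtain ⟨p, rfl⟩ := hleft u hu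
      refine hcon (p.1, true) (clique_insert hK fun v hv _ => ?_)
      obtain ⟨q, rfl⟩ := hleft v hv
      have : q = p := (h2 p q hu hv).symm
      rw [G_rl, this]
      exact edge_at _

/-- a maximal clique through the edge vertex `e` meets the twins of both ends of `e` -/
theorem meets_end {K : Set V} (hK : Maximal G.IsClique K) {e : Fin 13 × Bool}
    (he : Sum.inr e ∈ K) {x : Fin 13} (hx : inc x e = true) :
    ∃ j : Fin 5, Sum.inl (x, j) ∈ K := by
  by_contra hcon
  push Not at hcon
  refine hcon 0 (clique_insert hK fun u hu hne => ?_)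
  rcases u with p | f
  · have hpe : inc p.1 e = true :=
      (G_lr p e).1 (hK.1 hu he (by simp))
    have hpx : p.1 ≠ x := by
      intro h
      refine hcon p.2 ?_
      rw [← h]; exact hu
    rw [G_ll]
    -- `x` and `p.1` are the two ends of `e`
    have hall : ∀ e : Fin 13 × Bool, ∀ x : Fin 13, inc x e = true → ∀ y : Fin 13,
        inc y e = true → y ≠ x → adj x y = true := by decide
    exact hall e x hx p.1 hpe hpx
  · have hfe : f = e := by
      by_contra hfe
      exact G_rr f e (hK.1 hu he (fun h => hfe (Sum.inr.inj h)))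
    rw [hfe, G_lr]
    exact hx

theorem G_cis : IsCIS G := by
  intro K S hK hS
  obtain ⟨e, he⟩ := exists_edge hK
  by_cases heS : Sum.inr e ∈ S
  · exact ⟨_, he, heS⟩
  · have : ∃ u ∈ S, G.Adj (Sum.inr e) u := by
      by_contra hcon
      push Not at hcon
      exact heS (indep_insert hS hcon)
    obtain ⟨u, huS, hadj⟩ := this
    rcases u with p | f
    · have hpe : inc p.1 e = true := (G_rl p e).1 hadj
      obtain ⟨j, hj⟩ := meets_end hK he hpe
      refine ⟨Sum.inl (p.1, j), hj, indep_insert hS fun v hv hadj' => ?_⟩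
      have hpv : G.Adj (Sum.inl p) v := by
        rcases v with q | f
        · exact hadj'
        · exact hadj'
      exact hS.1 huS hv hpv.ne hpv
    · exact absurd hadj (G_rr e f)

/-- cliques have at most three vertices -/
theorem clique_le (K : Finset V) (hK : G.IsClique K) : K.card ≤ 3 := by
  have hsplit : K.card = (K.filter fun u => u.isLeft = true).card +
      (K.filter fun u => ¬ u.isLeft = true).card := by
    rw [Finset.card_filter_add_card_filter_not]
  have h1 : (K.filter fun u => u.isLeft = true).card ≤ 2 := by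
    by_contra hcon
    push Not at hcon
    obtain ⟨a, b, c, ha, hb, hc, hab, hac, hbc⟩ := Finset.two_lt_card_iff.1 hcon
    rw [Finset.mem_filter] at ha hb hc
    rcases a with a | a
    swap
    · simp at ha
    rcases b with b | b
    swap
    · simp at hb
    rcases c with c | c
    swap
    · simp at hc
    have e1 : adj a.1 b.1 = true := hK ha.1 hb.1 hab
    have e2 : adj b.1 c.1 = true := hK hb.1 hc.1 hbc
    have e3 : adj a.1 c.1 = true := hK ha.1 hc.1 hac
    rw [adj_tri _ _ e1 _ e2] at e3
    exact absurd e3 (by decide)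
  have h2 : (K.filter fun u => ¬ u.isLeft = true).card ≤ 1 := by
    rw [Finset.card_le_one]
    intro a ha b hb
    rw [Finset.mem_filter] at ha hb
    rcases a with a | a
    · simp at ha
    rcases b with b | b
    · simp at hb
    by_contra hab
    exact G_rr a b (hK ha.1 hb.1 hab)
  omega

/-- the edges of the circulant graph -/
def edges : List (ℕ × ℕ) :=
  [(0, 1), (1, 2), (2, 3), (3, 4), (4, 5), (5, 6), (6, 7), (7, 8), (8, 9), (9, 10), (10, 11),
   (11, 12), (12, 0), (0, 5), (1, 6), (2, 7), (3, 8), (4, 9), (5, 10), (6, 11), (7, 12), (8, 0),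
   (9, 1), (10, 2), (11, 3), (12, 4)]

/-- for a set of vertices coded by the bits of `m`: independent implies weight at most 30 -/
def good (m : ℕ) : Bool :=
  !(edges.all fun e => !(m.testBit e.1 && m.testBit e.2)) ||
    Nat.ble (5 * ((List.range 13).map fun x => (m.testBit x).toNat).sum +
      (edges.map fun e => (!(m.testBit e.1 || m.testBit e.2)).toNat).sum) 30

theorem good_all : ∀ a : Fin 64, ∀ b : Fin 128, good (128 * a.1 + b.1) = true := by decide +kernel

theorem good_lt {m : ℕ} (hm : m < 8192) : good m = true := by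
  have h := good_all ⟨m / 128, by omega⟩ ⟨m % 128, Nat.mod_lt _ (by norm_num)⟩
  have e : 128 * (m / 128) + m % 128 = m := Nat.div_add_mod m 128
  simpa [e] using h

theorem good_fun (b : Fin 13 → Bool)
    (hb : ∀ x y : Fin 13, adj x y = true → ¬ (b x = true ∧ b y = true)) :
    5 * (∑ x, (b x).toNat) + (∑ e : Fin 13 × Bool, (!(b e.1 || b (other e))).toNat) ≤ 30 := by
  have hlt : Nat.ofBits b < 8192 := by
    have := Nat.ofBits_lt_two_pow b
    norm_num at this
    exact this
  have h := good_lt hlt
  have t0 : (Nat.ofBits b).testBit 0 = b 0 := Nat.testBit_ofBits_lt b 0 (by norm_num)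
  have t1 : (Nat.ofBits b).testBit 1 = b 1 := Nat.testBit_ofBits_lt b 1 (by norm_num)
  have t2 : (Nat.ofBits b).testBit 2 = b 2 := Nat.testBit_ofBits_lt b 2 (by norm_num)
  have t3 : (Nat.ofBits b).testBit 3 = b 3 := Nat.testBit_ofBits_lt b 3 (by norm_num)
  have t4 : (Nat.ofBits b).testBit 4 = b 4 := Nat.testBit_ofBits_lt b 4 (by norm_num)
  have t5 : (Nat.ofBits b).testBit 5 = b 5 := Nat.testBit_ofBits_lt b 5 (by norm_num)
  have t6 : (Nat.ofBits b).testBit 6 = b 6 := Nat.testBit_ofBits_lt b 6 (by norm_num)
  have t7 : (Nat.ofBits b).testBit 7 = b 7 := Nat.testBit_ofBits_lt b 7 (by norm_num)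
  have t8 : (Nat.ofBits b).testBit 8 = b 8 := Nat.testBit_ofBits_lt b 8 (by norm_num)
  have t9 : (Nat.ofBits b).testBit 9 = b 9 := Nat.testBit_ofBits_lt b 9 (by norm_num)
  have t10 : (Nat.ofBits b).testBit 10 = b 10 := Nat.testBit_ofBits_lt b 10 (by norm_num)
  have t11 : (Nat.ofBits b).testBit 11 = b 11 := Nat.testBit_ofBits_lt b 11 (by norm_num)
  have t12 : (Nat.ofBits b).testBit 12 = b 12 := Nat.testBit_ofBits_lt b 12 (by norm_num)
  have hx : ∀ x y : Fin 13, adj x y = true → (b x && b y) = false := by
    intro x y hxy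
    have := hb x y hxy
    cases h1 : b x <;> cases h2 : b y <;> simp_all
  have f0 : (b 0 && b 1) = false := hx 0 1 rfl
  have f1 : (b 1 && b 2) = false := hx 1 2 rfl
  have f2 : (b 2 && b 3) = false := hx 2 3 rfl
  have f3 : (b 3 && b 4) = false := hx 3 4 rfl
  have f4 : (b 4 && b 5) = false := hx 4 5 rfl
  have f5 : (b 5 && b 6) = false := hx 5 6 rfl
  have f6 : (b 6 && b 7) = false := hx 6 7 rfl
  have f7 : (b 7 && b 8) = false := hx 7 8 rfl
  have f8 : (b 8 && b 9) = false := hx 8 9 rfl
  have f9 : (b 9 && b 10) = false := hx 9 10 rfl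
  have f10 : (b 10 && b 11) = false := hx 10 11 rfl
  have f11 : (b 11 && b 12) = false := hx 11 12 rfl
  have f12 : (b 12 && b 0) = false := hx 12 0 rfl
  have f13 : (b 0 && b 5) = false := hx 0 5 rfl
  have f14 : (b 1 && b 6) = false := hx 1 6 rfl
  have f15 : (b 2 && b 7) = false := hx 2 7 rfl
  have f16 : (b 3 && b 8) = false := hx 3 8 rfl
  have f17 : (b 4 && b 9) = false := hx 4 9 rfl
  have f18 : (b 5 && b 10) = false := hx 5 10 rfl
  have f19 : (b 6 && b 11) = false := hx 6 11 rfl
  have f20 : (b 7 && b 12) = false := hx 7 12 rfl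
  have f21 : (b 8 && b 0) = false := hx 8 0 rfl
  have f22 : (b 9 && b 1) = false := hx 9 1 rfl
  have f23 : (b 10 && b 2) = false := hx 10 2 rfl
  have f24 : (b 11 && b 3) = false := hx 11 3 rfl
  have f25 : (b 12 && b 4) = false := hx 12 4 rfl
  have hr : List.range 13 = [0, 1, 2, 3, 4, 5, 6, 7, 8, 9, 10, 11, 12] := by decide
  unfold good at h
  rw [hr] at h
  simp only [edges, List.all_cons, List.all_nil, List.map_cons, List.map_nil, List.sum_cons,
    List.sum_nil, Bool.not_false, Bool.and_true, Bool.not_true, Bool.false_or,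
    t0, t1, t2, t3, t4, t5, t6, t7, t8, t9, t10, t11, t12, f0, f1, f2, f3, f4, f5, f6, f7, f8,
    f9, f10, f11, f12, f13, f14, f15, f16, f17, f18, f19, f20, f21, f22, f23, f24, f25] at h
  have h2 := Nat.le_of_ble_eq_true h
  have e1 : ∀ f : Fin 13 → ℕ, ∑ x, f x = f 0 + f 1 + f 2 + f 3 + f 4 + f 5 + f 6 + f 7 + f 8 +
      f 9 + f 10 + f 11 + f 12 := by
    intro f
    have hl : List.finRange 13 = [0, 1, 2, 3, 4, 5, 6, 7, 8, 9, 10, 11, 12] := by decide
    rw [Fin.sum_univ_def, hl]
    simp only [List.map_cons, List.map_nil, List.sum_cons, List.sum_nil]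
    ring
  have g0 : other (0, false) = 1 := rfl
  have g1 : other (1, false) = 2 := rfl
  have g2 : other (2, false) = 3 := rfl
  have g3 : other (3, false) = 4 := rfl
  have g4 : other (4, false) = 5 := rfl
  have g5 : other (5, false) = 6 := rfl
  have g6 : other (6, false) = 7 := rfl
  have g7 : other (7, false) = 8 := rfl
  have g8 : other (8, false) = 9 := rfl
  have g9 : other (9, false) = 10 := rfl
  have g10 : other (10, false) = 11 := rfl
  have g11 : other (11, false) = 12 := rfl
  have g12 : other (12, false) = 0 := rfl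
  have g13 : other (0, true) = 5 := rfl
  have g14 : other (1, true) = 6 := rfl
  have g15 : other (2, true) = 7 := rfl
  have g16 : other (3, true) = 8 := rfl
  have g17 : other (4, true) = 9 := rfl
  have g18 : other (5, true) = 10 := rfl
  have g19 : other (6, true) = 11 := rfl
  have g20 : other (7, true) = 12 := rfl
  have g21 : other (8, true) = 0 := rfl
  have g22 : other (9, true) = 1 := rfl
  have g23 : other (10, true) = 2 := rfl
  have g24 : other (11, true) = 3 := rfl
  have g25 : other (12, true) = 4 := rfl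
  rw [Fintype.sum_prod_type]
  simp only [Fintype.sum_bool, e1, g0, g1, g2, g3, g4, g5, g6, g7, g8, g9, g10, g11, g12, g13, g14, g15, g16, g17, g18, g19,
    g20, g21, g22, g23, g24, g25]
  refine le_trans (le_of_eq ?_) h2
  ring

/-- independent sets have at most 30 vertices -/
theorem indep_le (S : Finset V) (hS : G.IsIndepSet S) : S.card ≤ 30 := by
  classical
  let b : Fin 13 → Bool := fun x => decide (∃ i : Fin 5, Sum.inl (x, i) ∈ S)
  have hb : ∀ x y : Fin 13, adj x y = true → ¬ (b x = true ∧ b y = true) := by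
    rintro x y hxy ⟨hx, hy⟩
    obtain ⟨i, hi⟩ := of_decide_eq_true hx
    obtain ⟨j, hj⟩ := of_decide_eq_true hy
    have hadj : G.Adj (Sum.inl (x, i)) (Sum.inl (y, j)) := hxy
    exact hS hi hj hadj.ne hadj
  have h := good_fun b hb
  have hL : S.toLeft.card ≤ 5 * ∑ x, (b x).toNat := by
    have h1 : S.toLeft ⊆ (Finset.univ.filter fun x => b x = true) ×ˢ (Finset.univ : Finset (Fin 5)) := by
      rintro ⟨x, i⟩ hxi
      rw [Finset.mem_toLeft] at hxi
      simp only [Finset.mem_product, Finset.mem_filter, Finset.mem_univ, true_and, and_true]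
      exact decide_eq_true ⟨i, hxi⟩
    have h2 := Finset.card_le_card h1
    rw [Finset.card_product, Finset.card_univ, Fintype.card_fin, Finset.card_filter] at h2
    have h3 : ∀ x, (if b x = true then 1 else 0) = (b x).toNat := by
      intro x; cases b x <;> rfl
    simp only [h3] at h2
    omega
  have hR : S.toRight.card ≤ ∑ e : Fin 13 × Bool, (!(b e.1 || b (other e))).toNat := by
    have h1 : S.toRight ⊆ Finset.univ.filter fun e => (!(b e.1 || b (other e))) = true := by
      intro e he
      rw [Finset.mem_toRight] at he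
      simp only [Finset.mem_filter, Finset.mem_univ, true_and]
      have hn : ∀ x, inc x e = true → b x = false := by
        intro x hx
        cases hbx : b x
        · rfl
        · obtain ⟨i, hi⟩ := of_decide_eq_true hbx
          have hadj : G.Adj (Sum.inl (x, i)) (Sum.inr e) := hx
          exact absurd hadj (hS hi he hadj.ne)
      rw [hn e.1 (by simp [inc]), hn (other e) (by simp [inc])]
      rfl
    have h2 := Finset.card_le_card h1
    rw [Finset.card_filter] at h2
    have h3 : ∀ e : Fin 13 × Bool, (if (!(b e.1 || b (other e))) = true then 1 else 0) =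
        (!(b e.1 || b (other e))).toNat := by
      intro e; cases (b e.1 || b (other e)) <;> rfl
    simp only [h3] at h2
    exact h2
  have hc := Finset.card_toLeft_add_card_toRight (u := S)
  omega

/-- There is a CIS graph with `α ω < |V|`. -/
theorem result : ∃ (V : Type) (_ : Fintype V) (G : SimpleGraph V),
    IsCIS G ∧ G.indepNum * G.cliqueNum < Fintype.card V := by
  refine ⟨V, inferInstance, G, G_cis, ?_⟩
  obtain ⟨S, hS⟩ := G.exists_isNIndepSet_indepNum
  obtain ⟨K, hK⟩ := G.exists_isNClique_cliqueNum
  have h1 : G.indepNum ≤ 30 := by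
    rw [← hS.card_eq]; exact indep_le S hS.isIndepSet
  have h2 : G.cliqueNum ≤ 3 := by
    rw [← hK.card_eq]; exact clique_le K hK.isClique
  have h3 : Fintype.card V = 91 := by simp [V]
  rw [h3]
  calc G.indepNum * G.cliqueNum ≤ 30 * 3 := Nat.mul_le_mul h1 h2
    _ < 91 := by norm_num

end Pool.Agent.Results.MP_703660_co.CISCounterexample
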