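import Pool.Agent.Helper83.Transport

/-!
# Continuous dependence for the planar `n`-body problem, including the existence of nearby solutions
-/

set_option autoImplicit false

namespace Pool.Agent.Helper83.Nearby

open Set Filter Topology Pool.Agent.W821.TB

variable {n : ℕ} {m : Fin n → ℝ}

/-- No collisions. -/
def noColl (n : ℕ) : Set (Ph n) := {z | ∀ a b, a ≠ b → z.1 a ≠ z.1 b}

/-- Solutions of Newton's equations on the time set `J` (no condition on the centre of mass). -/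
def Sol (m : Fin n → ℝ) (J : Set ℝ) (x : ℝ → Ph n) : Prop :=
  ∀ t ∈ J, x t ∈ noColl n ∧ HasDerivWithinAt x (vf m (x t)) J t

theorem isOpen_noColl : IsOpen (noColl n) := by
  have : noColl n = ⋂ a : Fin n, ⋂ b : Fin n, {z : Ph n | a ≠ b → z.1 a ≠ z.1 b} := by
    ext z; simp [noColl]
  rw [this]
  refine isOpen_iInter_of_finite fun a => isOpen_iInter_of_finite fun b => ?_
  by_cases hab : a = b
  · simp [hab]
  · have h1 : Continuous fun z : Ph n => z.1 a := by fun_prop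
    have h2 : Continuous fun z : Ph n => z.1 b := by fun_prop
    simpa [hab] using isOpen_ne_fun h1 h2

theorem Sol.cont {J : Set ℝ} {x : ℝ → Ph n} (h : Sol m J x) : ContinuousOn x J :=
  fun t ht => (h t ht).2.continuousWithinAt

/-- Uniform local existence near a compact set without collisions. -/
theorem uniform_exist {Γ : Set (Ph n)} (hΓ : IsCompact Γ) (hne : Γ ⊆ noColl n) :
    ∃ r : ℝ, 0 < r ∧ ∃ τ : ℝ, 0 < τ ∧ ∀ q ∈ Γ, ∀ z, dist z q < r → ∃ α : ℝ → Ph n, α 0 = z ∧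
      ∀ t ∈ Icc 0 τ, HasDerivAt α (vf m (α t)) t := by
  classical
  have h1 : ∀ p : Γ, ∃ r : ℝ, 0 < r ∧ ∃ ε : ℝ, 0 < ε ∧ ∀ z ∈ Metric.closedBall (p : Ph n) r,
      ∃ α : ℝ → Ph n, α 0 = z ∧ ∀ t ∈ Ioo (0 - ε) (0 + ε), HasDerivAt α (vf m (α t)) t := by
    rintro ⟨p, hp⟩
    obtain ⟨r, hr, ε, hε, h⟩ :=
      (contDiffAt_vf (m := m) (hne hp)).exists_forall_mem_closedBall_exists_eq_forall_mem_Ioo_hasDerivAt 0
    exact ⟨r, hr, ε, hε, h⟩
  choose r hr ε hε h using h1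
  obtain ⟨T, hT⟩ := hΓ.elim_finite_subcover (fun p : Γ => Metric.ball (p : Ph n) (r p))
    (fun p => Metric.isOpen_ball) (fun p hp => mem_iUnion.2 ⟨⟨p, hp⟩, Metric.mem_ball_self (hr _)⟩)
  have hT' : Γ ⊆ ⋃ i : T, Metric.ball ((i : Γ) : Ph n) (r i) := by
    intro p hp
    obtain ⟨i, hi, hpi⟩ := mem_iUnion₂.1 (hT hp)
    exact mem_iUnion.2 ⟨⟨i, hi⟩, hpi⟩
  obtain ⟨ρ, hρ, hball⟩ := lebesgue_number_lemma_of_metric hΓ (fun i : T => Metric.isOpen_ball) hT'
  obtain ⟨τ, hτ, hτε⟩ : ∃ τ : ℝ, 0 < τ ∧ ∀ i ∈ T, τ < ε i := by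
    clear hT hT' hball
    induction T using Finset.induction_on with
    | empty => exact ⟨1, one_pos, by simp⟩
    | insert a s _ ih =>
      obtain ⟨τ, hτ, hh⟩ := ih
      refine ⟨min τ (ε a / 2), lt_min hτ (by have := hε a; positivity), fun i hi => ?_⟩
      rcases Finset.mem_insert.1 hi with rfl | hi
      · have := hε i
        exact (min_le_right _ _).trans_lt (by linarith)
      · exact (min_le_left _ _).trans_lt (hh i hi)
  refine ⟨ρ, hρ, τ, hτ, fun q hq z hz => ?_⟩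
  obtain ⟨i, hi⟩ := hball q hq
  obtain ⟨α, hα0, hα⟩ := h i z (Metric.ball_subset_closedBall (hi (Metric.mem_ball.2 hz)))
  refine ⟨α, hα0, fun t ht => hα t ⟨?_, ?_⟩⟩
  · have := hε i; linarith [ht.1]
  · have := hτε i i.2; linarith [ht.2]

/-- Gronwall with a first exit argument. -/
theorem stay_close {x β : ℝ → Ph n} {t₀ t₁ : ℝ} {K : NNReal} {r δ ρ : ℝ}
    (hx : ∀ t ∈ Icc t₀ t₁, HasDerivWithinAt x (vf m (x t)) (Icc t₀ t₁) t)
    (hβ : ∀ t ∈ Icc t₀ t₁, HasDerivWithinAt β (vf m (β t)) (Icc t₀ t₁) t)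
    (hK : ∀ t ∈ Icc t₀ t₁, LipschitzOnWith K (vf m) (Metric.ball (x t) ρ))
    (hρ : 0 < ρ) (hrρ : r ≤ ρ) (hδ : δ * Real.exp (K * (t₁ - t₀)) < r) (hδ0 : 0 < δ)
    (h0 : dist (β t₀) (x t₀) < δ) : ∀ t ∈ Icc t₀ t₁, dist (β t) (x t) < r := by
  have hxc : ContinuousOn x (Icc t₀ t₁) := fun t ht => (hx t ht).continuousWithinAt
  have hβc : ContinuousOn β (Icc t₀ t₁) := fun t ht => (hβ t ht).continuousWithinAt
  have hD : ContinuousOn (fun t => dist (β t) (x t)) (Icc t₀ t₁) :=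
    continuous_dist.comp_continuousOn (hβc.prodMk hxc)
  by_contra hcon
  push Not at hcon
  obtain ⟨t', ht', hd'⟩ := hcon
  have hA : IsCompact {t ∈ Icc t₀ t₁ | r ≤ dist (β t) (x t)} := by
    have : IsClosed ({t ∈ Icc t₀ t₁ | r ≤ dist (β t) (x t)}) :=
      hD.preimage_isClosed_of_isClosed isClosed_Icc (isClosed_Ici (a := r))
    exact isCompact_Icc.of_isClosed_subset this (fun t ht => ht.1)
  obtain ⟨t₂, ht₂, hleast⟩ := hA.exists_isLeast ⟨t', ht', hd'⟩
  have hbefore : ∀ t ∈ Ico t₀ t₂, dist (β t) (x t) < r := by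
    intro t ht
    by_contra hc
    have : t₂ ≤ t := hleast ⟨⟨ht.1, ht.2.le.trans ht₂.1.2⟩, not_lt.1 hc⟩
    exact absurd ht.2 (not_lt.2 this)
  have hsub : Icc t₀ t₂ ⊆ Icc t₀ t₁ := Icc_subset_Icc le_rfl ht₂.1.2
  have hder : ∀ (f : ℝ → Ph n), (∀ t ∈ Icc t₀ t₁, HasDerivWithinAt f (vf m (f t)) (Icc t₀ t₁) t) →
      ∀ t ∈ Ico t₀ t₂, HasDerivWithinAt f (vf m (f t)) (Ici t) t := by
    intro f hf t ht
    have ht1 : t < t₁ := ht.2.trans_le ht₂.1.2
    refine (hf t ⟨ht.1, ht1.le⟩).mono_of_mem_nhdsWithin ?_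
    refine mem_of_superset (Icc_mem_nhdsGE ht1) (Icc_subset_Icc ht.1 le_rfl)
  have hgron := dist_le_of_trajectories_ODE_of_mem (v := fun _ => vf m)
    (s := fun t => Metric.ball (x t) ρ) (K := K) (f := β) (g := x) (a := t₀) (b := t₂) (δ := δ)
    (fun t ht => hK t ⟨ht.1, ht.2.le.trans ht₂.1.2⟩)
    (hβc.mono hsub) (hder β hβ)
    (fun t ht => Metric.mem_ball.2 ((hbefore t ht).trans_le hrρ))
    (hxc.mono hsub) (hder x hx)
    (fun t _ => Metric.mem_ball_self hρ) h0.le t₂ ⟨ht₂.1.1, le_rfl⟩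
  have h3 : Real.exp (K * (t₂ - t₀)) ≤ Real.exp (K * (t₁ - t₀)) := by
    apply Real.exp_le_exp.2
    have : t₂ - t₀ ≤ t₁ - t₀ := by linarith [ht₂.1.2]
    exact mul_le_mul_of_nonneg_left this K.2
  have h4 : δ * Real.exp (K * (t₂ - t₀)) ≤ δ * Real.exp (K * (t₁ - t₀)) :=
    mul_le_mul_of_nonneg_left h3 hδ0.le
  have h5 := ht₂.2
  linarith

/-- Two solutions can be glued. -/
theorem glue {x₁ β : ℝ → Ph n} {s t : ℝ} (h0 : 0 ≤ s) (hst : s ≤ t) (h1 : Sol m (Icc 0 s) x₁)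
    (h2 : Sol m (Icc s t) β) (he : x₁ s = β s) :
    Sol m (Icc 0 t) (fun r => if r ≤ s then x₁ r else β r) := by
  set y : ℝ → Ph n := fun r => if r ≤ s then x₁ r else β r with hy
  have e1 : ∀ r ∈ Icc 0 s, y r = x₁ r := fun r hr => by simp [hy, hr.2]
  have e2 : ∀ r ∈ Icc s t, y r = β r := fun r hr => by
    by_cases h : r ≤ s
    · have : r = s := le_antisymm h hr.1
      subst this
      simp [hy, he]
    · simp [hy, h]
  intro r hr
  have hunion : Icc 0 t = Icc 0 s ∪ Icc s t := (Icc_union_Icc_eq_Icc h0 hst).symm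
  by_cases hrs : r ≤ s
  · have hr1 : r ∈ Icc 0 s := ⟨hr.1, hrs⟩
    refine ⟨by rw [e1 r hr1]; exact (h1 r hr1).1, ?_⟩
    have d1 : HasDerivWithinAt y (vf m (y r)) (Icc 0 s) r := by
      rw [e1 r hr1]
      exact (h1 r hr1).2.congr e1 (e1 r hr1)
    rw [hunion]
    refine d1.union ?_
    rcases eq_or_lt_of_le hrs with h | h
    · have hr2 : r ∈ Icc s t := ⟨h.ge, hr.2⟩
      rw [e2 r hr2]
      exact (h2 r hr2).2.congr e2 (e2 r hr2)
    · have hnot : r ∉ closure (Icc s t) := by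
        rw [isClosed_Icc.closure_eq]
        exact fun hh => absurd hh.1 (not_le.2 h)
      exact HasFDerivWithinAt.of_notMem_closure hnot
  · have hr2 : r ∈ Icc s t := ⟨(not_le.1 hrs).le, hr.2⟩
    refine ⟨by rw [e2 r hr2]; exact (h2 r hr2).1, ?_⟩
    have d2 : HasDerivWithinAt y (vf m (y r)) (Icc s t) r := by
      rw [e2 r hr2]
      exact (h2 r hr2).2.congr e2 (e2 r hr2)
    rw [hunion]
    have hnot : r ∉ closure (Icc 0 s) := by
      rw [isClosed_Icc.closure_eq]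
      exact fun hh => hrs hh.2
    have d1 : HasDerivWithinAt y (vf m (y r)) (Icc 0 s) r :=
      HasFDerivWithinAt.of_notMem_closure hnot
    exact d1.union d2

/-- Solutions with nearby initial conditions exist on `[0, T]` and are close at the time `T`. -/
theorem nearby {x : ℝ → Ph n} {T : ℝ} (hT : 0 ≤ T) (hx : Sol m (Icc 0 T) x) {ε : ℝ} (hε : 0 < ε) :
    ∃ δ : ℝ, 0 < δ ∧ ∀ z, dist z (x 0) < δ → ∃ y : ℝ → Ph n, Sol m (Icc 0 T) y ∧ y 0 = z ∧
      dist (y T) (x T) < ε := by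
  classical
  have hΓ : IsCompact (x '' Icc 0 T) := isCompact_Icc.image_of_continuousOn hx.cont
  have hΓne : x '' Icc 0 T ⊆ noColl n := by
    rintro z ⟨t, ht, rfl⟩
    exact (hx t ht).1
  obtain ⟨r₀, hr₀, τ, hτ, hex⟩ := uniform_exist (m := m) hΓ hΓne
  obtain ⟨K, ρ₁, hρ₁, hK⟩ := Pool.Agent.Helper83.Transport.uniform_lipschitz (m := m) hΓ hΓne
  obtain ⟨ρ₂, hρ₂, hsubset⟩ := hΓ.exists_thickening_subset_open isOpen_noColl hΓne
  -- one step
  have step : ∀ s t : ℝ, 0 ≤ s → s ≤ t → t ≤ T → t - s ≤ τ →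
      (∀ ε : ℝ, 0 < ε → ∃ δ : ℝ, 0 < δ ∧ ∀ z, dist z (x 0) < δ → ∃ y : ℝ → Ph n,
        Sol m (Icc 0 s) y ∧ y 0 = z ∧ dist (y s) (x s) < ε) →
      (∀ ε : ℝ, 0 < ε → ∃ δ : ℝ, 0 < δ ∧ ∀ z, dist z (x 0) < δ → ∃ y : ℝ → Ph n,
        Sol m (Icc 0 t) y ∧ y 0 = z ∧ dist (y t) (x t) < ε) := by
    intro s t hs hst htT hτs hQ ε hε
    set r : ℝ := min (min ρ₁ ρ₂) ε with hr
    have hr0 : 0 < r := lt_min (lt_min hρ₁ hρ₂) hε
    have hexp : 0 < Real.exp (K * (t - s)) := Real.exp_pos _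
    set δ₁ : ℝ := min r₀ (r / 2 / Real.exp (K * (t - s))) with hδ₁
    have hδ₁0 : 0 < δ₁ := lt_min hr₀ (by positivity)
    obtain ⟨δ, hδ, hQδ⟩ := hQ δ₁ hδ₁0
    refine ⟨δ, hδ, fun z hz => ?_⟩
    obtain ⟨y₁, hy₁, hy₁0, hy₁s⟩ := hQδ z hz
    have hsT : s ∈ Icc 0 T := ⟨hs, hst.trans htT⟩
    obtain ⟨α, hα0, hα⟩ := hex (x s) ⟨s, hsT, rfl⟩ (y₁ s) (hy₁s.trans_le (min_le_left _ _))
    let β : ℝ → Ph n := fun u => α (u - s)
    have hβs : β s = y₁ s := by simp only [β, sub_self]; exact hα0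
    have hβ : ∀ u ∈ Icc s t, HasDerivWithinAt β (vf m (β u)) (Icc s t) u := by
      intro u hu
      have h1 := hα (u - s) ⟨by linarith [hu.1], by linarith [hu.2]⟩
      have h2 : HasDerivAt β (vf m (β u)) u := by
        have := HasDerivAt.comp_sub_const u s h1
        exact this
      exact h2.hasDerivWithinAt
    have hsub : Icc s t ⊆ Icc 0 T := Icc_subset_Icc hs htT
    have hclose := stay_close (m := m) (x := x) (β := β) (t₀ := s) (t₁ := t) (K := K) (r := r)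
      (δ := δ₁) (ρ := ρ₁)
      (fun u hu => (hx u (hsub hu)).2.mono hsub) hβ (fun u hu => hK _ ⟨u, hsub hu, rfl⟩) hρ₁
      ((min_le_left _ _).trans (min_le_left _ _))
      (by
        have h1 : δ₁ ≤ r / 2 / Real.exp (K * (t - s)) := min_le_right _ _
        have h2 : δ₁ * Real.exp (K * (t - s)) ≤ r / 2 := by
          calc δ₁ * Real.exp (K * (t - s)) ≤ r / 2 / Real.exp (K * (t - s)) * Real.exp (K * (t - s)) :=
                mul_le_mul_of_nonneg_right h1 hexp.le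
            _ = r / 2 := by field_simp
        linarith) hδ₁0 (by rw [hβs]; exact hy₁s)
    have hβsol : Sol m (Icc s t) β := by
      intro u hu
      refine ⟨?_, hβ u hu⟩
      apply hsubset
      rw [Metric.mem_thickening_iff]
      exact ⟨x u, ⟨u, hsub hu, rfl⟩, (hclose u hu).trans_le
        ((min_le_left _ _).trans (min_le_right _ _))⟩
    refine ⟨_, glue hs hst hy₁ hβsol hβs.symm, ?_, ?_⟩
    · simp [hs, hy₁0]
    · have htt := hclose t ⟨hst, le_rfl⟩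
      have e : (if t ≤ s then y₁ t else β t) = β t := by
        by_cases h : t ≤ s
        · have : t = s := le_antisymm h hst
          subst this
          simp [hβs]
        · simp [h]
      show dist (if t ≤ s then y₁ t else β t) (x t) < ε
      rw [e]
      exact htt.trans_le (min_le_right _ _)
  have base : ∀ ε : ℝ, 0 < ε → ∃ δ : ℝ, 0 < δ ∧ ∀ z, dist z (x 0) < δ → ∃ y : ℝ → Ph n,
      Sol m (Icc 0 0) y ∧ y 0 = z ∧ dist (y 0) (x 0) < ε := by
    intro ε hε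
    have h0 : x 0 ∈ noColl n := (hx 0 ⟨le_rfl, hT⟩).1
    obtain ⟨δ, hδ, hball⟩ := Metric.isOpen_iff.1 (isOpen_noColl (n := n)) (x 0) h0
    refine ⟨min δ ε, lt_min hδ hε, fun z hz => ⟨fun _ => z, ?_, rfl, hz.trans_le (min_le_right _ _)⟩⟩
    intro u hu
    refine ⟨hball (Metric.mem_ball.2 (hz.trans_le (min_le_left _ _))), ?_⟩
    have : Icc (0 : ℝ) 0 = {0} := Icc_self 0
    rw [this] at hu ⊢
    have hu0 : u = 0 := hu
    rw [hu0]
    rw [hasDerivWithinAt_iff_tendsto_slope]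
    simp
  have all : ∀ j : ℕ, ∀ ε : ℝ, 0 < ε → ∃ δ : ℝ, 0 < δ ∧ ∀ z, dist z (x 0) < δ → ∃ y : ℝ → Ph n,
      Sol m (Icc 0 (min (j * τ) T)) y ∧ y 0 = z ∧ dist (y (min (j * τ) T)) (x (min (j * τ) T)) < ε := by
    intro j
    induction j with
    | zero =>
      have : min (((0 : ℕ) : ℝ) * τ) T = 0 := by simp [hT]
      rw [this]
      exact base
    | succ j ih =>
      refine step (min (j * τ) T) (min (((j + 1 : ℕ) : ℝ) * τ) T) (le_min (by positivity) hT) ?_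
        (min_le_right _ _) ?_ ih
      · refine min_le_min ?_ le_rfl
        push_cast
        nlinarith
      · push_cast
        rcases le_total ((j : ℝ) * τ) T with h | h
        · rw [min_eq_left h]
          have := min_le_left (((j : ℝ) + 1) * τ) T
          linarith
        · rw [min_eq_right h]
          have := min_le_right (((j : ℝ) + 1) * τ) T
          linarith
  obtain ⟨j, hj⟩ := exists_nat_ge (T / τ)
  have hjT : T ≤ j * τ := by
    rwa [div_le_iff₀ hτ] at hj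
  have := all j ε hε
  rwa [min_eq_right hjT] at this

end Pool.Agent.Helper83.Nearby
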