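import Mathlib

set_option autoImplicit false

/-!
Pseudo-instability of a point of a polyhedron is a local property: if `X` is a polyhedron, `Y` is any
continuum (in particular any polyhedron), and `x`, `y` have homeomorphic neighbourhoods, then `y` is
pseudo-unstable in `Y` as soon as `x` is pseudo-unstable in `X`.

* In a polyhedron, close maps are joined by a small homotopy (barycentric coordinates). So if `x` is
  pseudo-unstable then for every `ε` the identity is `ε`-homotopic to a map that misses `x`.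
* This last property can be cut off near the point, so it is local.
* In a compact metric space it gives a continuum of maps which contains the identity and whose other
  members miss the point.
-/

namespace Pool.Agent.Results.MP_a217de_gt.PolyhedraLocal

open Topology Set Filter

universe u v

/-- The point `p` is `C_a`-unstable in `M`. -/
def IsCUnstable (M : Type u) (C : Type v) [TopologicalSpace M] [TopologicalSpace C] (a : C)
    (p : M) : Prop :=
  ∃ F : M × C → M, Continuous F ∧ (∀ z, F (z, a) = z) ∧ ∀ z c, c ≠ a → F (z, c) ≠ p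

/-- The point `p` is pseudo-unstable in `M`: it is `C_a`-unstable for some nondegenerate continuum
(compact connected metric space with more than one point) `C` and some `a ∈ C`. -/
def IsPseudoUnstable (M : Type u) [TopologicalSpace M] (p : M) : Prop :=
  ∃ (C : Type u) (_ : MetricSpace C) (_ : CompactSpace C) (_ : ConnectedSpace C)
    (_ : Nontrivial C) (a : C), IsCUnstable M C a p

/-- `X` is homeomorphic to the underlying space of a finite geometric simplicial complex. -/
def IsPolyhedron (X : Type u) [TopologicalSpace X] : Prop :=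
  ∃ (n : ℕ) (K : Geometry.SimplicialComplex ℝ (EuclideanSpace ℝ (Fin n))),
    K.faces.Finite ∧ Nonempty (X ≃ₜ K.space)

/-- For every `ε > 0` the identity is `ε`-homotopic to a map that misses `p`. -/
def EpsUnstable (M : Type u) [MetricSpace M] (p : M) : Prop :=
  ∀ ε : ℝ, 0 < ε → ∃ H : C(unitInterval × M, M), (∀ z, H (0, z) = z) ∧
    (∀ t z, dist z (H (t, z)) < ε) ∧ ∀ z, H (1, z) ≠ p

/-! ### From small homotopies to a continuum of maps -/

lemma isCompact_insert_iUnion {α : Type*} [TopologicalSpace α] (p : α) (S : ℕ → Set α)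
    (hS : ∀ n, IsCompact (S n)) (h : ∀ W ∈ 𝓝 p, ∃ N, ∀ n, N ≤ n → S n ⊆ W) :
    IsCompact (insert p (⋃ n, S n)) := by
  classical
  apply isCompact_of_finite_subcover
  intro ι U hUo hcov
  obtain ⟨i0, hi0⟩ := mem_iUnion.1 (hcov (mem_insert p _))
  obtain ⟨N, hN⟩ := h (U i0) ((hUo i0).mem_nhds hi0)
  have hfin : IsCompact (⋃ n ∈ Finset.range N, S n) :=
    (Finset.range N).isCompact_biUnion fun n _ => hS n
  obtain ⟨t, ht⟩ := hfin.elim_finite_subcover U hUo (by
    intro x hx
    obtain ⟨n, hn⟩ := mem_iUnion.1 hx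
    obtain ⟨_, hx⟩ := mem_iUnion.1 hn
    exact hcov (mem_insert_of_mem _ (mem_iUnion.2 ⟨n, hx⟩)))
  refine ⟨insert i0 t, ?_⟩
  rintro x (rfl | hx)
  · exact mem_biUnion (Finset.mem_insert_self i0 t) hi0
  · obtain ⟨n, hn⟩ := mem_iUnion.1 hx
    by_cases hnN : n < N
    · have : x ∈ ⋃ n ∈ Finset.range N, S n := by
        simp only [mem_iUnion, Finset.mem_range]
        exact ⟨n, hnN, hn⟩
      obtain ⟨i, hi⟩ := mem_iUnion.1 (ht this)
      obtain ⟨hit, hi⟩ := mem_iUnion.1 hi
      exact mem_biUnion (Finset.mem_insert_of_mem hit) hi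
    · exact mem_biUnion (Finset.mem_insert_self i0 t) (hN n (not_lt.1 hnN) hn)

theorem EpsUnstable.pseudoUnstable {Y : Type u} [MetricSpace Y] [CompactSpace Y] {y : Y}
    (h : EpsUnstable Y y) : IsPseudoUnstable Y y := by
  classical
  have hne : Nonempty Y := ⟨y⟩
  choose H H0 Hd H1 using h
  -- the final maps
  let g : ∀ ε : ℝ, 0 < ε → C(Y, Y) := fun ε he => (H ε he).curry 1
  have hg : ∀ ε he z, g ε he z = H ε he (1, z) := fun ε he z => rfl
  let D : {ε : ℝ // 0 < ε} → ℝ := fun ε => Metric.infDist y (range (g ε.1 ε.2))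
  have hD : ∀ ε, 0 < D ε := by
    intro ε
    have hc : IsClosed (range (g ε.1 ε.2)) :=
      (isCompact_range (g ε.1 ε.2).continuous).isClosed
    refine (hc.notMem_iff_infDist_pos (range_nonempty _)).1 ?_
    rintro ⟨z, hz⟩
    exact H1 ε.1 ε.2 z hz
  let nxt : {ε : ℝ // 0 < ε} → {ε : ℝ // 0 < ε} := fun ε =>
    ⟨min (ε.1 / 2) (D ε), lt_min (half_pos ε.2) (hD ε)⟩
  let e : ℕ → {ε : ℝ // 0 < ε} := fun n => nxt^[n] ⟨1, one_pos⟩
  have he : ∀ n, e (n + 1) = nxt (e n) := fun n => Function.iterate_succ_apply' _ _ _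
  have he2 : ∀ n, (e (n + 1)).1 ≤ (e n).1 / 2 := fun n => by rw [he]; exact min_le_left _ _
  have heD : ∀ n, (e (n + 1)).1 ≤ D (e n) := fun n => by rw [he]; exact min_le_right _ _
  have hpow : ∀ n, (e n).1 ≤ (1 / 2 : ℝ) ^ n := by
    intro n
    induction n with
    | zero => exact le_rfl
    | succ n ih =>
      refine (he2 n).trans ?_
      rw [pow_succ]
      linarith
  let G : ℕ → C(Y, Y) := fun n => g (e n).1 (e n).2
  let hh : ℕ → C(unitInterval, C(Y, Y)) := fun n => (H (e n).1 (e n).2).curry
  have hh0 : ∀ n, hh n 0 = ContinuousMap.id Y := fun n => by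
    ext z
    exact H0 _ _ z
  have hh1 : ∀ n, hh n 1 = G n := fun n => rfl
  have hGy : ∀ n z, G n z ≠ y := fun n z => H1 _ _ z
  have hhd : ∀ n t z, dist z (hh n t z) < (e n).1 := fun n t z => Hd _ _ t z
  -- the pieces of the continuum
  let A : ℕ → Set C(Y, Y) := fun n => range fun t : unitInterval => (G (n + 1)).comp (hh n t)
  let B : ℕ → Set C(Y, Y) := fun n => range fun t : unitInterval => (hh (n + 1) t).comp (G n)
  have hAc : ∀ n, Continuous fun t : unitInterval => (G (n + 1)).comp (hh n t) := fun n =>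
    (ContinuousMap.continuous_postcomp (G (n + 1))).comp (hh n).continuous
  have hBc : ∀ n, Continuous fun t : unitInterval => (hh (n + 1) t).comp (G n) := fun n =>
    (ContinuousMap.continuous_precomp (G n)).comp (hh (n + 1)).continuous
  let S : ℕ → Set C(Y, Y) := fun n => A n ∪ B n
  have hScomp : ∀ n, IsCompact (S n) := fun n =>
    (isCompact_range (hAc n)).union (isCompact_range (hBc n))
  have hconn : ∀ n, IsPreconnected (S n) := by
    intro n
    refine IsPreconnected.union ((G (n + 1)).comp (G n)) ⟨1, ?_⟩ ⟨1, ?_⟩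
      (isPreconnected_range (hAc n)) (isPreconnected_range (hBc n))
    · simp only [hh1]
    · simp only [hh1]
  have hGA : ∀ n, G (n + 1) ∈ S n := fun n => Or.inl ⟨0, by
    simp only [hh0]
    exact ContinuousMap.comp_id _⟩
  have hGB : ∀ n, G n ∈ S n := fun n => Or.inr ⟨0, by
    simp only [hh0]
    exact ContinuousMap.id_comp _⟩
  have hmiss : ∀ n, ∀ f ∈ S n, ∀ z, f z ≠ y := by
    rintro n f (⟨t, rfl⟩ | ⟨t, rfl⟩) z hz
    · exact hGy (n + 1) _ hz
    · have h1 : dist (G n z) y < (e (n + 1)).1 := by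
        have := hhd (n + 1) t (G n z)
        have h3 : hh (n + 1) t (G n z) = y := hz
        rwa [h3] at this
      have h2 : D (e n) ≤ dist y (G n z) := Metric.infDist_le_dist_of_mem ⟨z, rfl⟩
      rw [dist_comm] at h2
      exact absurd h1 (not_lt.2 ((heD n).trans h2))
  have hclose : ∀ n, ∀ f ∈ S n, dist f (ContinuousMap.id Y) ≤ 2 * (1 / 2 : ℝ) ^ n := by
    intro n f hf
    rw [ContinuousMap.dist_le (by positivity)]
    intro z
    have hn := hpow n
    have hn1 : (e (n + 1)).1 ≤ (1 / 2 : ℝ) ^ n := by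
      have := he2 n
      have := (e n).2
      linarith
    rcases hf with ⟨t, rfl⟩ | ⟨t, rfl⟩
    · have h1 := hhd (n + 1) 1 (hh n t z)
      have h2 := hhd n t z
      have h3 : dist ((G (n + 1)) (hh n t z)) z
          ≤ dist (hh n t z) (hh (n + 1) 1 (hh n t z)) + dist z (hh n t z) := by
        rw [hh1, dist_comm (hh n t z), dist_comm z]
        exact dist_triangle _ _ _
      have h4 : dist (((G (n + 1)).comp (hh n t)) z) ((ContinuousMap.id Y) z)
          = dist ((G (n + 1)) (hh n t z)) z := rfl
      rw [h4]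
      linarith
    · have h1 := hhd (n + 1) t (G n z)
      have h2 := hhd n 1 z
      rw [hh1] at h2
      have h3 : dist (hh (n + 1) t (G n z)) z
          ≤ dist (G n z) (hh (n + 1) t (G n z)) + dist z (G n z) := by
        rw [dist_comm (G n z) (hh (n + 1) t (G n z)), dist_comm z]
        exact dist_triangle _ _ _
      have h4 : dist (((hh (n + 1) t).comp (G n)) z) ((ContinuousMap.id Y) z)
          = dist (hh (n + 1) t (G n z)) z := rfl
      rw [h4]
      linarith
  have htend : Tendsto (fun n : ℕ => 2 * (1 / 2 : ℝ) ^ n) atTop (𝓝 0) := by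
    have := (tendsto_pow_atTop_nhds_zero_of_lt_one (r := (1 / 2 : ℝ)) (by norm_num)
      (by norm_num)).const_mul 2
    simpa using this
  let T : Set C(Y, Y) := ⋃ n, S n
  let Q : Set C(Y, Y) := insert (ContinuousMap.id Y) T
  have hQcomp : IsCompact Q := by
    refine isCompact_insert_iUnion _ S hScomp ?_
    intro W hW
    obtain ⟨r, hr, hrW⟩ := Metric.mem_nhds_iff.1 hW
    obtain ⟨N, hN⟩ := eventually_atTop.1 (htend.eventually (gt_mem_nhds hr))
    refine ⟨N, fun n hn f hf => hrW ?_⟩
    exact lt_of_le_of_lt (hclose n f hf) (hN n hn)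
  have hTconn : IsPreconnected T := by
    refine IsPreconnected.iUnion_of_chain hconn ?_
    intro n
    exact ⟨G (n + 1), hGA n, hGB (n + 1)⟩
  have hidcl : ContinuousMap.id Y ∈ closure T := by
    rw [Metric.mem_closure_iff]
    intro r hr
    obtain ⟨N, hN⟩ := eventually_atTop.1 (htend.eventually (gt_mem_nhds hr))
    refine ⟨G N, mem_iUnion.2 ⟨N, hGB N⟩, ?_⟩
    rw [dist_comm]
    exact lt_of_le_of_lt (hclose N _ (hGB N)) (hN N le_rfl)
  have hQconn : IsConnected Q :=
    ⟨⟨_, mem_insert _ _⟩, hTconn.subset_closure (subset_insert _ _)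
      (insert_subset hidcl subset_closure)⟩
  have hmissT : ∀ f ∈ T, ∀ z, f z ≠ y := by
    intro f hf
    obtain ⟨n, hn⟩ := mem_iUnion.1 hf
    exact hmiss n f hn
  have hidne : ContinuousMap.id Y ≠ G 0 := fun h0 => hGy 0 y (by rw [← h0]; rfl)
  refine ⟨Q, inferInstance, isCompact_iff_compactSpace.1 hQcomp,
    isConnected_iff_connectedSpace.1 hQconn,
    ⟨⟨⟨_, mem_insert _ _⟩, ⟨G 0, mem_insert_of_mem _ (mem_iUnion.2 ⟨0, hGB 0⟩)⟩, ?_⟩⟩,
    ⟨ContinuousMap.id Y, mem_insert _ _⟩, fun q => q.2.1 q.1, ?_, fun z => rfl, ?_⟩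
  · intro h0
    exact hidne (congrArg Subtype.val h0)
  · have : Continuous fun q : Y × Q => ((q.2 : C(Y, Y)), q.1) :=
      (continuous_subtype_val.comp continuous_snd).prodMk continuous_fst
    exact continuous_eval.comp this
  · intro z c hc
    rcases c.2 with h0 | h0
    · exact absurd (Subtype.ext h0) hc
    · exact hmissT _ h0 z

/-! ### The property is local -/

theorem EpsUnstable.transfer {X : Type u} {Y : Type v} [MetricSpace X] [CompactSpace X]
    [MetricSpace Y] {x : X} {y : Y} {U : Set X} {V : Set Y} (hU : U ∈ 𝓝 x)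
    (hV : V ∈ 𝓝 y) (e : U ≃ₜ V) (he : (e ⟨x, mem_of_mem_nhds hU⟩ : Y) = y)
    (h : EpsUnstable X x) : EpsUnstable Y y := by
  classical
  have hxU : x ∈ U := mem_of_mem_nhds hU
  have hyV : y ∈ V := mem_of_mem_nhds hV
  -- total versions of the two maps
  let P : X → Y := fun z => if hz : z ∈ U then (e ⟨z, hz⟩ : Y) else y
  let R : Y → X := fun w => if hw : w ∈ V then (e.symm ⟨w, hw⟩ : X) else x
  have hPU : ∀ z (hz : z ∈ U), P z = (e ⟨z, hz⟩ : Y) := fun z hz => dif_pos hz
  have hRV : ∀ w (hw : w ∈ V), R w = (e.symm ⟨w, hw⟩ : X) := fun w hw => dif_pos hw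
  have hPc : ContinuousOn P U := by
    rw [continuousOn_iff_continuous_domRestrict]
    have : U.domRestrict P = fun z : U => (e z : Y) := by
      ext z
      exact hPU z.1 z.2
    rw [this]
    exact continuous_subtype_val.comp e.continuous
  have hRc : ContinuousOn R V := by
    rw [continuousOn_iff_continuous_domRestrict]
    have : V.domRestrict R = fun w : V => (e.symm w : X) := by
      ext w
      exact hRV w.1 w.2
    rw [this]
    exact continuous_subtype_val.comp e.symm.continuous
  have hRP : ∀ z ∈ U, R (P z) = z := by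
    intro z hz
    rw [hPU z hz, hRV _ (e ⟨z, hz⟩).2]
    simp
  have hPR : ∀ w ∈ V, P (R w) = w := by
    intro w hw
    rw [hRV w hw, hPU _ (e.symm ⟨w, hw⟩).2]
    simp
  have hPx : P x = y := by rw [hPU x hxU]; exact he
  have hRy : R y = x := by rw [← hPx, hRP x hxU]
  -- the radius
  obtain ⟨r, hr, hrU, hrV⟩ : ∃ r : ℝ, 0 < r ∧ Metric.closedBall x (3 * r) ⊆ U ∧
      ∀ z ∈ Metric.closedBall x (3 * r), P z ∈ interior V := by
    have h1 : ContinuousAt P x := hPc.continuousAt hU
    have h2 : P ⁻¹' interior V ∈ 𝓝 x := h1 (by rw [hPx]; exact interior_mem_nhds.2 hV)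
    obtain ⟨s, hs, hs2⟩ := Metric.nhds_basis_closedBall.mem_iff.1 (inter_mem hU h2)
    refine ⟨s / 3, by positivity, ?_, ?_⟩
    · intro z hz
      have : 3 * (s / 3) = s := by ring
      rw [this] at hz
      exact (hs2 hz).1
    · intro z hz
      have : 3 * (s / 3) = s := by ring
      rw [this] at hz
      exact (hs2 hz).2
  let O : Set Y := interior V ∩ R ⁻¹' Metric.ball x (2 * r)
  have hO : IsOpen O :=
    (hRc.mono interior_subset).isOpen_inter_preimage isOpen_interior Metric.isOpen_ball
  let Kc : Set Y := P '' Metric.closedBall x (3 / 2 * r)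
  have hKU : Metric.closedBall x (3 / 2 * r) ⊆ U :=
    (Metric.closedBall_subset_closedBall (by linarith)).trans hrU
  have hKc : IsClosed Kc :=
    ((isCompact_closedBall x (3 / 2 * r)).image_of_continuousOn (hPc.mono hKU)).isClosed
  have hKO : Kc ⊆ O := by
    rintro w ⟨z, hz, rfl⟩
    refine ⟨hrV z (Metric.closedBall_subset_closedBall (by linarith) hz), ?_⟩
    rw [mem_preimage, hRP z (hKU hz), Metric.mem_ball]
    have := Metric.mem_closedBall.1 hz
    linarith
  have hyO : y ∈ O := ⟨mem_interior_iff_mem_nhds.2 hV, by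
    rw [mem_preimage, hRy]
    exact Metric.mem_ball_self (by linarith)⟩
  intro ε hε
  -- uniform continuity of `P`
  have huc : UniformContinuousOn P (Metric.closedBall x (3 * r)) :=
    (isCompact_closedBall x (3 * r)).uniformContinuousOn_of_continuous (hPc.mono hrU)
  obtain ⟨δ, hδ, hδε⟩ := Metric.uniformContinuousOn_iff.1 huc ε hε
  obtain ⟨H, H0, Hd, H1⟩ := h (min δ (r / 2)) (lt_min hδ (by positivity))
  let lam : X → unitInterval := fun z => projIcc 0 1 zero_le_one (3 - 2 * (dist z x / r))
  have hlam : Continuous lam := by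
    refine continuous_projIcc.comp ?_
    fun_prop
  have hlam1 : ∀ z, dist z x ≤ r → lam z = 1 := by
    intro z hz
    refine projIcc_of_right_le _ ?_
    have : dist z x / r ≤ 1 := (div_le_one hr).2 hz
    linarith
  have hlam0 : ∀ z, 3 / 2 * r ≤ dist z x → lam z = 0 := by
    intro z hz
    refine projIcc_of_le_left _ ?_
    have : 3 / 2 ≤ dist z x / r := by
      rw [le_div_iff₀ hr]
      exact hz
    linarith
  let k : unitInterval × Y → Y := fun q =>
    if q.2 ∈ O then P (H (q.1 * lam (R q.2), R q.2)) else q.2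
  have hHin : ∀ t z, z ∈ Metric.ball x (2 * r) → H (t, z) ∈ Metric.closedBall x (3 * r) := by
    intro t z hz
    have h1 := Hd t z
    have h2 : dist z (H (t, z)) < r / 2 := lt_of_lt_of_le h1 (min_le_right _ _)
    rw [Metric.mem_closedBall]
    have h3 : dist (H (t, z)) x ≤ dist z (H (t, z)) + dist z x := by
      rw [dist_comm z (H (t, z))]
      exact dist_triangle _ _ _
    have h4 := Metric.mem_ball.1 hz
    linarith
  have hkc : Continuous k := by
    rw [continuous_iff_continuousAt]
    rintro ⟨t0, w0⟩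
    by_cases hw0 : w0 ∈ O
    · have hopen : IsOpen ((univ : Set unitInterval) ×ˢ O) := isOpen_univ.prod hO
      have hcon : ContinuousOn (fun q : unitInterval × Y =>
          P (H (q.1 * lam (R q.2), R q.2))) ((univ : Set unitInterval) ×ˢ O) := by
        have hR2 : ContinuousOn (fun q : unitInterval × Y => R q.2)
            ((univ : Set unitInterval) ×ˢ O) :=
          hRc.comp continuousOn_snd fun q hq => interior_subset hq.2.1
        refine hPc.comp (H.continuous.comp_continuousOn
          ((continuousOn_fst.mul (hlam.comp_continuousOn hR2)).prodMk hR2)) ?_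
        intro q hq
        exact hrU (hHin _ _ hq.2.2)
      refine ((hcon.congr ?_).continuousAt (hopen.mem_nhds ⟨mem_univ _, hw0⟩))
      intro q hq
      exact if_pos hq.2
    · have hopen : IsOpen ((univ : Set unitInterval) ×ˢ Kcᶜ) := isOpen_univ.prod hKc.isOpen_compl
      have hcon : ContinuousOn (fun q : unitInterval × Y => q.2)
          ((univ : Set unitInterval) ×ˢ Kcᶜ) := continuousOn_snd
      refine ((hcon.congr ?_).continuousAt
        (hopen.mem_nhds ⟨mem_univ _, fun hh => hw0 (hKO hh)⟩))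
      intro q hq
      by_cases hqO : q.2 ∈ O
      · have h1 : k q = P (H (q.1 * lam (R q.2), R q.2)) := if_pos hqO
        have hqV : q.2 ∈ V := interior_subset hqO.1
        have h2 : lam (R q.2) = 0 := by
          apply hlam0
          by_contra hlt
          exact hq.2 ⟨R q.2, Metric.mem_closedBall.2 (not_le.1 hlt).le, hPR _ hqV⟩
        rw [h1, h2, mul_zero, H0, hPR _ hqV]
      · exact if_neg hqO
  refine ⟨⟨k, hkc⟩, ?_, ?_, ?_⟩
  · intro w
    change k (0, w) = w
    by_cases hw : w ∈ O
    · have h1 : k (0, w) = P (H (0 * lam (R w), R w)) := if_pos hw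
      rw [h1, zero_mul, H0, hPR _ (interior_subset hw.1)]
    · exact if_neg hw
  · intro t w
    change dist w (k (t, w)) < ε
    by_cases hw : w ∈ O
    · have h1 : k (t, w) = P (H (t * lam (R w), R w)) := if_pos hw
      have hwV : w ∈ V := interior_subset hw.1
      rw [h1]
      have h2 : R w ∈ Metric.closedBall x (3 * r) := by
        have h3 := Metric.mem_ball.1 hw.2
        rw [Metric.mem_closedBall]
        linarith
      have h4 := hδε (R w) h2 (H (t * lam (R w), R w)) (hHin _ _ hw.2)
        (lt_of_lt_of_le (Hd _ _) (min_le_left _ _))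
      rwa [hPR w hwV] at h4
    · have h1 : k (t, w) = w := if_neg hw
      rw [h1, dist_self]
      exact hε
  · intro w hw1
    change k (1, w) = y at hw1
    by_cases hw : w ∈ O
    · have h1 : k (1, w) = P (H (1 * lam (R w), R w)) := if_pos hw
      rw [h1, one_mul] at hw1
      have h2 : H (lam (R w), R w) = x := by
        have h3 := hRP _ (hrU (hHin (lam (R w)) (R w) hw.2))
        rw [hw1, hRy] at h3
        exact h3.symm
      have h3 : dist (R w) x < r := by
        have h4 := lt_of_lt_of_le (Hd (lam (R w)) (R w)) (min_le_right _ _)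
        rw [h2] at h4
        linarith
      rw [hlam1 _ h3.le] at h2
      exact H1 _ h2
    · have h1 : k (1, w) = w := if_neg hw
      rw [h1] at hw1
      exact hw (hw1 ▸ hyO)

/-! ### Barycentric coordinates in a finite geometric complex -/

section Bary

variable {E : Type v} [NormedAddCommGroup E] [NormedSpace ℝ E]

/-- Weight functions carried by the finite set `s`. -/
def faceW (s : Finset E) : Set (E → ℝ) :=
  {w | (∀ v, 0 ≤ w v) ∧ (∀ v, v ∉ s → w v = 0) ∧ ∑ v ∈ s, w v = 1}

/-- The point with weights `w`. -/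
def bary (V : Finset E) (w : E → ℝ) : E := ∑ v ∈ V, w v • v

omit [NormedAddCommGroup E] [NormedSpace ℝ E] in
lemma isCompact_faceW (s : Finset E) : IsCompact (faceW s) := by
  have hcl : IsClosed (faceW s) := by
    have h1 : IsClosed (⋂ v : E, {w : E → ℝ | 0 ≤ w v}) :=
      isClosed_iInter fun v => isClosed_le continuous_const (continuous_apply v)
    have h2 : IsClosed (⋂ v : E, ⋂ _ : v ∉ s, {w : E → ℝ | w v = 0}) :=
      isClosed_iInter fun v => isClosed_iInter fun _ =>
        isClosed_eq (continuous_apply v) continuous_const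
    have h3 : IsClosed {w : E → ℝ | ∑ v ∈ s, w v = 1} :=
      isClosed_eq (continuous_finsetSum _ fun v _ => continuous_apply v) continuous_const
    have h4 : faceW s = (⋂ v : E, {w : E → ℝ | 0 ≤ w v}) ∩
        ((⋂ v : E, ⋂ _ : v ∉ s, {w : E → ℝ | w v = 0}) ∩ {w : E → ℝ | ∑ v ∈ s, w v = 1}) := by
      ext w
      simp only [faceW, mem_inter_iff, mem_iInter, Set.mem_ofPred_eq]
    rw [h4]
    exact h1.inter (h2.inter h3)
  refine (isCompact_univ_pi (fun _ : E => isCompact_Icc (a := (0 : ℝ)) (b := 1))).of_isClosed_subset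
    hcl ?_
  intro w hw v _
  refine ⟨hw.1 v, ?_⟩
  by_cases hv : v ∈ s
  · rw [← hw.2.2]
    exact Finset.single_le_sum (fun i _ => hw.1 i) hv
  · rw [hw.2.1 v hv]
    exact zero_le_one

lemma bary_eq {V s : Finset E} (hs : s ⊆ V) {w : E → ℝ} (hw : w ∈ faceW s) :
    bary V w = ∑ v ∈ s, w v • v :=
  (Finset.sum_subset hs (fun v _ hv => by rw [hw.2.1 v hv, zero_smul])).symm

lemma bary_mem {V s : Finset E} (hs : s ⊆ V) {w : E → ℝ} (hw : w ∈ faceW s) :
    bary V w ∈ convexHull ℝ (s : Set E) := by
  rw [bary_eq hs hw]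
  exact (convex_convexHull ℝ _).sum_mem (fun v _ => hw.1 v) hw.2.2
    (fun v hv => subset_convexHull ℝ _ hv)

lemma faceW_unique {s : Finset E} (hs : AffineIndependent ℝ ((↑) : s → E)) {w w' : E → ℝ}
    (hw : w ∈ faceW s) (hw' : w' ∈ faceW s) (h : ∑ v ∈ s, w v • v = ∑ v ∈ s, w' v • v) :
    w = w' := by
  have h1 : ∀ v ∈ s, (w - w') v = 0 := by
    apply hs.eq_zero_of_sum_eq_zero_subtype
    · simp only [Pi.sub_apply, Finset.sum_sub_distrib, hw.2.2, hw'.2.2, sub_self]
    · simp only [Pi.sub_apply, sub_smul, Finset.sum_sub_distrib, h, sub_self]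
  ext v
  by_cases hv : v ∈ s
  · exact sub_eq_zero.1 (h1 v hv)
  · rw [hw.2.1 v hv, hw'.2.1 v hv]

theorem exists_coords (K : Geometry.SimplicialComplex ℝ E) (hK : K.faces.Finite) :
    ∃ (V : Finset E) (β : K.space → E → ℝ), (∀ s ∈ K.faces, s ⊆ V) ∧ Continuous β ∧
      (∀ p, ∃ s ∈ K.faces, β p ∈ faceW s) ∧ ∀ p, bary V (β p) = p := by
  classical
  let V : Finset E := hK.toFinset.biUnion id
  have hV : ∀ s ∈ K.faces, s ⊆ V := fun s hs =>
    Finset.subset_biUnion_of_mem id (hK.mem_toFinset.2 hs)
  let R : Set (E → ℝ) := ⋃ s ∈ K.faces, faceW s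
  have hR : IsCompact R := hK.isCompact_biUnion fun s _ => isCompact_faceW s
  have hmem : ∀ w ∈ R, bary V w ∈ K.space := by
    intro w hw
    obtain ⟨s, hw⟩ := mem_iUnion.1 hw
    obtain ⟨hs, hw⟩ := mem_iUnion.1 hw
    exact K.convexHull_subset_space hs (bary_mem (hV s hs) hw)
  let f : R → K.space := fun w => ⟨bary V w.1, hmem w.1 w.2⟩
  have hfc : Continuous f := by
    refine Continuous.subtype_mk ?_ _
    exact continuous_finsetSum _ fun v _ =>
      ((continuous_apply v).comp continuous_subtype_val).smul continuous_const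
  have hbij : Function.Bijective f := by
    constructor
    · rintro ⟨w, hw⟩ ⟨w', hw'⟩ h
      have h : bary V w = bary V w' := congrArg Subtype.val h
      obtain ⟨s, hw⟩ := mem_iUnion.1 hw
      obtain ⟨hs, hw⟩ := mem_iUnion.1 hw
      obtain ⟨t, hw'⟩ := mem_iUnion.1 hw'
      obtain ⟨ht, hw'⟩ := mem_iUnion.1 hw'
      have h1 : bary V w ∈ convexHull ℝ (s : Set E) ∩ convexHull ℝ (t : Set E) :=
        ⟨bary_mem (hV s hs) hw, h ▸ bary_mem (hV t ht) hw'⟩
      have h2 := K.inter_subset_convexHull hs ht h1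
      rw [← Finset.coe_inter, Finset.mem_convexHull'] at h2
      obtain ⟨c, hc0, hc1, hc⟩ := h2
      let c' : E → ℝ := fun v => if v ∈ s ∩ t then c v else 0
      have hc'0 : ∀ v, 0 ≤ c' v := by
        intro v
        by_cases hv : v ∈ s ∩ t
        · have : c' v = c v := if_pos hv
          rw [this]
          exact hc0 v hv
        · have : c' v = 0 := if_neg hv
          rw [this]
      have hsum : ∀ r : Finset E, s ∩ t ⊆ r → ∑ v ∈ r, c' v = 1 ∧
          ∑ v ∈ r, c' v • v = bary V w := by
        intro r hr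
        constructor
        · rw [← Finset.sum_subset hr (fun v _ hv => if_neg hv), ← hc1]
          exact Finset.sum_congr rfl fun v hv => if_pos hv
        · rw [← Finset.sum_subset hr (fun v _ hv => by
            have : c' v = 0 := if_neg hv
            rw [this, zero_smul]), ← hc]
          exact Finset.sum_congr rfl fun v hv => by
            have : c' v = c v := if_pos hv
            rw [this]
      have hcs : c' ∈ faceW s := ⟨hc'0, fun v hv => if_neg fun h => hv (Finset.mem_inter.1 h).1,
        (hsum s Finset.inter_subset_left).1⟩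
      have hct : c' ∈ faceW t := ⟨hc'0, fun v hv => if_neg fun h => hv (Finset.mem_inter.1 h).2,
        (hsum t Finset.inter_subset_right).1⟩
      have e1 : w = c' := faceW_unique (K.indep hs) hw hcs (by
        rw [(hsum s Finset.inter_subset_left).2, bary_eq (hV s hs) hw])
      have e2 : w' = c' := faceW_unique (K.indep ht) hw' hct (by
        rw [(hsum t Finset.inter_subset_right).2, h, bary_eq (hV t ht) hw'])
      exact Subtype.ext (e1.trans e2.symm)
    · rintro ⟨x, hx⟩
      obtain ⟨s, hs, hxs⟩ := Geometry.SimplicialComplex.mem_space_iff.1 hx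
      rw [Finset.mem_convexHull'] at hxs
      obtain ⟨c, hc0, hc1, hc⟩ := hxs
      let c' : E → ℝ := fun v => if v ∈ s then c v else 0
      have hcs : c' ∈ faceW s := by
        refine ⟨fun v => ?_, fun v hv => if_neg hv, ?_⟩
        · by_cases hv : v ∈ s
          · have : c' v = c v := if_pos hv
            rw [this]
            exact hc0 v hv
          · have : c' v = 0 := if_neg hv
            rw [this]
        · rw [← hc1]
          exact Finset.sum_congr rfl fun v hv => if_pos hv
      refine ⟨⟨c', mem_biUnion hs hcs⟩, Subtype.ext ?_⟩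
      change bary V c' = x
      rw [bary_eq (hV s hs) hcs, ← hc]
      exact Finset.sum_congr rfl fun v hv => by
        have : c' v = c v := if_pos hv
        rw [this]
  have : CompactSpace R := isCompact_iff_compactSpace.1 hR
  let ho : R ≃ₜ K.space := Continuous.homeoOfEquivCompactToT2 (f := Equiv.ofBijective f hbij) hfc
  refine ⟨V, fun p => (ho.symm p).1, hV, continuous_subtype_val.comp ho.symm.continuous, ?_, ?_⟩
  · intro p
    obtain ⟨s, hs⟩ := mem_iUnion.1 (ho.symm p).2
    obtain ⟨hs, hw⟩ := mem_iUnion.1 hs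
    exact ⟨s, hs, hw⟩
  · intro p
    have h1 : f (ho.symm p) = p := ho.apply_symm_apply p
    exact congrArg Subtype.val h1

end Bary

/-! ### Small homotopies in a finite geometric complex -/

lemma coef0 (t : ℝ) (ht : t ≤ 1 / 2) :
    max 0 (1 - 2 * t) = 1 - 2 * t ∧ 1 - |2 * t - 1| = 2 * t ∧ max 0 (2 * t - 1) = 0 := by
  refine ⟨max_eq_right (by linarith), ?_, max_eq_left (by linarith)⟩
  rw [abs_of_nonpos (by linarith)]
  ring

lemma coef1 (t : ℝ) (ht : 1 / 2 ≤ t) :
    max 0 (1 - 2 * t) = 0 ∧ 1 - |2 * t - 1| = 2 - 2 * t ∧ max 0 (2 * t - 1) = 2 * t - 1 := by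
  refine ⟨max_eq_left (by linarith), ?_, max_eq_right (by linarith)⟩
  rw [abs_of_nonneg (by linarith)]
  ring

theorem isCompact_space {E : Type v} [NormedAddCommGroup E] [NormedSpace ℝ E]
    (K : Geometry.SimplicialComplex ℝ E) (hK : K.faces.Finite) : IsCompact K.space :=
  hK.isCompact_biUnion fun s _ => s.finite_toSet.isCompact_convexHull ℝ

theorem epsUnstable_of_complex {E : Type v} [NormedAddCommGroup E] [NormedSpace ℝ E]
    (K : Geometry.SimplicialComplex ℝ E) (hK : K.faces.Finite) (p0 : K.space)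
    {C : Type u} [MetricSpace C] [ConnectedSpace C] [Nontrivial C] (a : C)
    (h : IsCUnstable K.space C a p0) : EpsUnstable K.space p0 := by
  classical
  have : CompactSpace K.space := isCompact_iff_compactSpace.1 (isCompact_space K hK)
  intro ε hε
  obtain ⟨V, β, hV, hβ, hβf, hβb⟩ := exists_coords K hK
  obtain ⟨F, hF, hFa, hFp⟩ := h
  have hβv : ∀ v, Continuous fun z => β z v := fun v => (continuous_apply v).comp hβ
  let M : ℝ := 1 + ∑ v ∈ V, ‖v‖
  have hM1 : 1 ≤ M := le_add_of_nonneg_right (Finset.sum_nonneg fun v _ => norm_nonneg v)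
  have hMv : ∀ v ∈ V, ‖v‖ ≤ M := fun v hv =>
    (Finset.single_le_sum (f := fun v : E => ‖v‖) (fun i _ => norm_nonneg i) hv).trans
      (le_add_of_nonneg_left zero_le_one)
  have hM0 : 0 < M := lt_of_lt_of_le one_pos hM1
  let D : K.space → K.space → ℝ := fun p q => ∑ v ∈ V, |β p v - β q v|
  let η : ℝ := min 1 (ε / (2 * M))
  have hη : 0 < η := lt_min one_pos (by positivity)
  -- a parameter `c ≠ a` close to `a`
  have hev : ∀ᶠ c in 𝓝 a, ∀ z ∈ (univ : Set K.space),
      D z (F (z, c)) + dist z (F (z, c)) < η := by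
    refine isCompact_univ.eventually_forall_of_forall_eventually ?_
    intro z _
    have hcont : Continuous fun q : C × K.space =>
        D q.2 (F (q.2, q.1)) + dist q.2 (F (q.2, q.1)) := by
      have h1 : Continuous fun q : C × K.space => F (q.2, q.1) :=
        hF.comp (continuous_snd.prodMk continuous_fst)
      refine Continuous.add ?_ (continuous_snd.dist h1)
      exact continuous_finsetSum _ fun v _ =>
        (((hβv v).comp continuous_snd).sub ((hβv v).comp h1)).abs
    have h0 : D z (F (z, a)) + dist z (F (z, a)) = 0 := by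
      rw [hFa]
      simp [D]
    exact hcont.continuousAt.eventually (p := fun r : ℝ => r < η)
      (by change ∀ᶠ r in 𝓝 (D z (F (z, a)) + dist z (F (z, a))), r < η
          rw [h0]
          exact gt_mem_nhds hη)
  have hnb : NeBot (𝓝[≠] a) := ConnectedSpace.neBot_nhdsWithin_compl_of_nontrivial_of_t1space a
  obtain ⟨c, hca, hc⟩ : ∃ c, c ≠ a ∧ ∀ z, D z (F (z, c)) + dist z (F (z, c)) < η := by
    have h1 : ∀ᶠ c in 𝓝[≠] a, ∀ z ∈ (univ : Set K.space),
        D z (F (z, c)) + dist z (F (z, c)) < η := nhdsWithin_le_nhds hev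
    have h2 : ∀ᶠ c in 𝓝[≠] a, c ∈ ({a} : Set C)ᶜ := self_mem_nhdsWithin
    obtain ⟨c, h3, h4⟩ := (h1.and h2).exists
    exact ⟨c, h4, fun z => h3 z (mem_univ z)⟩
  let q : K.space → K.space := fun z => F (z, c)
  have hqc : Continuous q := hF.comp (continuous_id.prodMk continuous_const)
  have hDn : ∀ z, 0 ≤ D z (q z) := fun z => Finset.sum_nonneg fun v _ => abs_nonneg _
  have hD1 : ∀ z, D z (q z) < 1 := fun z => by
    have h1 := hc z
    have h2 : η ≤ 1 := min_le_left _ _
    have h3 : 0 ≤ dist z (q z) := dist_nonneg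
    change D z (q z) + dist z (q z) < η at h1
    linarith
  let m : K.space → E → ℝ := fun z v => min (β z v) (β (q z) v)
  let S : K.space → ℝ := fun z => ∑ v ∈ V, m z v
  have hmc : ∀ v, Continuous fun z => m z v := fun v => (hβv v).min ((hβv v).comp hqc)
  have hSc : Continuous S := continuous_finsetSum _ fun v _ => hmc v
  have hβ0 : ∀ z v, 0 ≤ β z v := fun z v => by
    obtain ⟨s, _, hs⟩ := hβf z
    exact hs.1 v
  have hm0 : ∀ z v, 0 ≤ m z v := fun z v => le_min (hβ0 z v) (hβ0 _ v)
  have hβ1 : ∀ z, ∑ v ∈ V, β z v = 1 := fun z => by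
    obtain ⟨s, hs, hw⟩ := hβf z
    rw [← hw.2.2]
    exact (Finset.sum_subset (hV s hs) fun v _ hv => hw.2.1 v hv).symm
  have hmD : ∀ z v, β z v - m z v ≤ |β z v - β (q z) v| := fun z v => by
    rcases le_total (β z v) (β (q z) v) with h1 | h1
    · have : m z v = β z v := min_eq_left h1
      rw [this, sub_self]
      exact abs_nonneg _
    · have : m z v = β (q z) v := min_eq_right h1
      rw [this]
      exact le_abs_self _
  have hSD : ∀ z, 1 - S z ≤ D z (q z) := fun z => by
    rw [← hβ1 z, ← Finset.sum_sub_distrib]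
    exact Finset.sum_le_sum fun v _ => hmD z v
  have hS0 : ∀ z, 0 < S z := fun z => by
    have h1 := hSD z
    have h2 := hD1 z
    linarith
  have hS1 : ∀ z, S z ≤ 1 := fun z => by
    rw [← hβ1 z]
    exact Finset.sum_le_sum fun v _ => min_le_left _ _
  let mu : K.space → E := fun z => bary V fun v => m z v / S z
  have hmuc : Continuous mu := continuous_finsetSum _ fun v _ =>
    ((hmc v).div hSc fun z => (hS0 z).ne').smul continuous_const
  -- the weights of `mu z` are carried by every face that carries `z` or `q z`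
  have hface : ∀ z, ∀ s ∈ K.faces, (∀ v, v ∉ s → m z v = 0) →
      (fun v => m z v / S z) ∈ faceW s := by
    intro z s hs hzero
    refine ⟨fun v => div_nonneg (hm0 z v) (hS0 z).le, fun v hv => by
      change m z v / S z = 0
      rw [hzero v hv, zero_div], ?_⟩
    rw [← Finset.sum_div, Finset.sum_subset (hV s hs) fun v _ hv => hzero v hv]
    exact div_self (hS0 z).ne'
  have hmuL : ∀ z : K.space, ∃ s ∈ K.faces, (z : E) ∈ convexHull ℝ (s : Set E) ∧
      mu z ∈ convexHull ℝ (s : Set E) := by
    intro z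
    obtain ⟨s, hs, hw⟩ := hβf z
    refine ⟨s, hs, ?_, bary_mem (hV s hs) (hface z s hs fun v hv => ?_)⟩
    · have := bary_mem (hV s hs) hw
      rwa [hβb z] at this
    · have h1 := hw.2.1 v hv
      change min (β z v) (β (q z) v) = 0
      rw [h1]
      exact min_eq_left (hβ0 _ v)
  have hmuR : ∀ z : K.space, ∃ s ∈ K.faces, (q z : E) ∈ convexHull ℝ (s : Set E) ∧
      mu z ∈ convexHull ℝ (s : Set E) := by
    intro z
    obtain ⟨s, hs, hw⟩ := hβf (q z)
    refine ⟨s, hs, ?_, bary_mem (hV s hs) (hface z s hs fun v hv => ?_)⟩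
    · have := bary_mem (hV s hs) hw
      rwa [hβb (q z)] at this
    · have h1 := hw.2.1 v hv
      change min (β z v) (β (q z) v) = 0
      rw [h1]
      exact min_eq_right (hβ0 _ v)
  have hmud : ∀ z, ‖mu z - z‖ ≤ 2 * M * D z (q z) := by
    intro z
    have h1 : mu z - z = ∑ v ∈ V, (m z v / S z - β z v) • v := by
      have : (z : E) = bary V (β z) := (hβb z).symm
      rw [this]
      simp only [mu, bary, sub_smul, Finset.sum_sub_distrib]
    have h2 : ∀ v ∈ V, ‖(m z v / S z - β z v) • v‖ ≤
        M * ((m z v / S z - m z v) + (β z v - m z v)) := by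
      intro v hv
      rw [norm_smul, Real.norm_eq_abs, mul_comm]
      refine mul_le_mul (hMv v hv) ?_ (abs_nonneg _) hM0.le
      have h3 : 0 ≤ m z v / S z - m z v := by
        rw [sub_nonneg, le_div_iff₀ (hS0 z)]
        exact mul_le_of_le_one_right (hm0 z v) (hS1 z)
      have h4 : 0 ≤ β z v - m z v := sub_nonneg.2 (min_le_left _ _)
      rw [abs_le]
      constructor <;> linarith
    rw [h1]
    refine (norm_sum_le_of_le _ h2).trans ?_
    rw [← Finset.mul_sum, Finset.sum_add_distrib, Finset.sum_sub_distrib, Finset.sum_sub_distrib,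
      ← Finset.sum_div, hβ1 z]
    have h5 : (∑ v ∈ V, m z v) / S z = 1 := div_self (hS0 z).ne'
    rw [h5]
    have h6 := hSD z
    have h7 : ∑ v ∈ V, m z v = S z := rfl
    rw [h7]
    have h8 : M * (1 - S z + (1 - S z)) = 2 * M * (1 - S z) := by ring
    rw [h8]
    exact mul_le_mul_of_nonneg_left h6 (by positivity)
  let c0 : ℝ → ℝ := fun t => max 0 (1 - 2 * t)
  let c1 : ℝ → ℝ := fun t => 1 - |2 * t - 1|
  let c2 : ℝ → ℝ := fun t => max 0 (2 * t - 1)
  let G : unitInterval × K.space → E := fun r =>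
    c0 r.1 • (r.2 : E) + c1 r.1 • mu r.2 + c2 r.1 • (q r.2 : E)
  have hGc : Continuous G := by
    have ht : Continuous fun r : unitInterval × K.space => (r.1 : ℝ) :=
      continuous_subtype_val.comp continuous_fst
    have h0 : Continuous fun r : unitInterval × K.space => c0 r.1 :=
      continuous_const.max (continuous_const.sub (continuous_const.mul ht))
    have h1 : Continuous fun r : unitInterval × K.space => c1 r.1 :=
      continuous_const.sub ((continuous_const.mul ht).sub continuous_const).abs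
    have h2 : Continuous fun r : unitInterval × K.space => c2 r.1 :=
      continuous_const.max ((continuous_const.mul ht).sub continuous_const)
    exact ((h0.smul (continuous_subtype_val.comp continuous_snd)).add
      (h1.smul (hmuc.comp continuous_snd))).add
      (h2.smul (continuous_subtype_val.comp (hqc.comp continuous_snd)))
  have hG : ∀ r, G r ∈ K.space := by
    rintro ⟨t, z⟩
    rcases le_total (t : ℝ) (1 / 2) with ht | ht
    · obtain ⟨e0, e1, e2⟩ := coef0 t ht
      obtain ⟨s, hs, h1, h2⟩ := hmuL z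
      have h3 : G (t, z) = (1 - 2 * (t : ℝ)) • (z : E) + (2 * (t : ℝ)) • mu z := by
        change max 0 (1 - 2 * (t : ℝ)) • (z : E) + (1 - |2 * (t : ℝ) - 1|) • mu z
          + max 0 (2 * (t : ℝ) - 1) • (q z : E) = _
        rw [e0, e1, e2, zero_smul, add_zero]
      rw [h3]
      refine K.convexHull_subset_space hs
        ((convex_convexHull ℝ (s : Set E)) h1 h2 ?_ ?_ ?_)
      · linarith
      · linarith [t.2.1]
      · ring
    · obtain ⟨e0, e1, e2⟩ := coef1 t ht
      obtain ⟨s, hs, h1, h2⟩ := hmuR z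
      have h3 : G (t, z) = (2 - 2 * (t : ℝ)) • mu z + (2 * (t : ℝ) - 1) • (q z : E) := by
        change max 0 (1 - 2 * (t : ℝ)) • (z : E) + (1 - |2 * (t : ℝ) - 1|) • mu z
          + max 0 (2 * (t : ℝ) - 1) • (q z : E) = _
        rw [e0, e1, e2, zero_smul, zero_add]
      rw [h3]
      refine K.convexHull_subset_space hs
        ((convex_convexHull ℝ (s : Set E)) h2 h1 ?_ ?_ ?_)
      · linarith [t.2.2]
      · linarith
      · ring
  refine ⟨⟨fun r => ⟨G r, hG r⟩, hGc.subtype_mk _⟩, ?_, ?_, ?_⟩
  · intro z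
    apply Subtype.ext
    change max 0 (1 - 2 * ((0 : unitInterval) : ℝ)) • (z : E)
      + (1 - |2 * ((0 : unitInterval) : ℝ) - 1|) • mu z
      + max 0 (2 * ((0 : unitInterval) : ℝ) - 1) • (q z : E) = z
    obtain ⟨e0, e1, e2⟩ := coef0 ((0 : unitInterval) : ℝ) (by simp)
    rw [e0, e1, e2]
    simp
  · intro t z
    have hd : dist z (⟨G (t, z), hG (t, z)⟩ : K.space) = ‖G (t, z) - z‖ := by
      rw [dist_comm]
      exact dist_eq_norm _ _
    change dist z (⟨G (t, z), hG (t, z)⟩ : K.space) < ε
    rw [hd]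
    have hq : dist z (q z) = ‖(q z : E) - z‖ := by
      rw [dist_comm]
      exact dist_eq_norm _ _
    have h1 : ‖G (t, z) - z‖ ≤ ‖mu z - z‖ + ‖(q z : E) - z‖ := by
      have ht0 := t.2.1
      have ht1 := t.2.2
      have key : ∀ x y : ℝ, 0 ≤ x → x ≤ 1 → 0 ≤ y → y ≤ 1 →
          G (t, z) - z = x • (mu z - z) + y • ((q z : E) - z) →
          ‖G (t, z) - z‖ ≤ ‖mu z - z‖ + ‖(q z : E) - z‖ := by
        intro x y hx0 hx1 hy0 hy1 hxy
        rw [hxy]
        refine (norm_add_le _ _).trans (add_le_add ?_ ?_)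
        · rw [norm_smul, Real.norm_eq_abs, abs_of_nonneg hx0]
          exact mul_le_of_le_one_left (norm_nonneg _) hx1
        · rw [norm_smul, Real.norm_eq_abs, abs_of_nonneg hy0]
          exact mul_le_of_le_one_left (norm_nonneg _) hy1
      rcases le_total (t : ℝ) (1 / 2) with ht | ht
      · obtain ⟨e0, e1, e2⟩ := coef0 t ht
        refine key (2 * (t : ℝ)) 0 (by linarith) (by linarith) le_rfl zero_le_one ?_
        change max 0 (1 - 2 * (t : ℝ)) • (z : E) + (1 - |2 * (t : ℝ) - 1|) • mu z
          + max 0 (2 * (t : ℝ) - 1) • (q z : E) - z = _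
        rw [e0, e1, e2, sub_smul, smul_sub, one_smul, zero_smul, zero_smul]
        abel
      · obtain ⟨e0, e1, e2⟩ := coef1 t ht
        refine key (2 - 2 * (t : ℝ)) (2 * (t : ℝ) - 1) (by linarith) (by linarith) (by linarith)
          (by linarith) ?_
        change max 0 (1 - 2 * (t : ℝ)) • (z : E) + (1 - |2 * (t : ℝ) - 1|) • mu z
          + max 0 (2 * (t : ℝ) - 1) • (q z : E) - z = _
        rw [e0, e1, e2]
        module
    have h2 := hmud z
    have h3 : D z (q z) + dist z (q z) < η := hc z
    have h4 : η ≤ ε / (2 * M) := min_le_right _ _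
    have h5 : 2 * M * (D z (q z) + dist z (q z)) < ε := by
      have := lt_of_lt_of_le h3 h4
      rwa [lt_div_iff₀ (by positivity), mul_comm] at this
    have h6 : dist z (q z) ≤ 2 * M * dist z (q z) :=
      le_mul_of_one_le_left dist_nonneg (by linarith)
    rw [mul_add] at h5
    rw [hq] at h5 h6
    linarith
  · intro z hz
    have h1 : G (1, z) = q z := by
      change max 0 (1 - 2 * ((1 : unitInterval) : ℝ)) • (z : E)
        + (1 - |2 * ((1 : unitInterval) : ℝ) - 1|) • mu z
        + max 0 (2 * ((1 : unitInterval) : ℝ) - 1) • (q z : E) = q z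
      obtain ⟨e0, e1, e2⟩ := coef1 ((1 : unitInterval) : ℝ) (by norm_num)
      rw [e0, e1, e2]
      have e3 : ((1 : unitInterval) : ℝ) = 1 := rfl
      rw [e3]
      norm_num
    have h2 : G (1, z) = p0 := congrArg Subtype.val hz
    rw [h1] at h2
    exact hFp z c hca (Subtype.ext h2)

/-- Answer to Q2: for polyhedra pseudo-instability is a local property; the second space may be any
continuum. -/
theorem result (X Y : Type u) [MetricSpace X] [CompactSpace X] [ConnectedSpace X]
    [MetricSpace Y] [CompactSpace Y] [ConnectedSpace Y] (hX : IsPolyhedron X)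
    (x : X) (y : Y) (U : Set X) (V : Set Y) (hU : U ∈ 𝓝 x) (hV : V ∈ 𝓝 y) (e : U ≃ₜ V)
    (he : (e ⟨x, mem_of_mem_nhds hU⟩ : Y) = y) (h : IsPseudoUnstable X x) :
    IsPseudoUnstable Y y := by
  obtain ⟨n, K, hK, ⟨f⟩⟩ := hX
  obtain ⟨C, _, _, _, _, a, F, hF, hFa, hFp⟩ := h
  have hc : CompactSpace K.space := isCompact_iff_compactSpace.1 (isCompact_space K hK)
  have h1 : EpsUnstable K.space (f x) := by
    refine epsUnstable_of_complex K hK (f x) a ⟨fun r => f (F (f.symm r.1, r.2)), ?_, ?_, ?_⟩
    · exact f.continuous.comp (hF.comp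
        ((f.symm.continuous.comp continuous_fst).prodMk continuous_snd))
    · intro z
      change f (F (f.symm z, a)) = z
      rw [hFa, f.apply_symm_apply]
    · intro z c hca hz
      exact hFp (f.symm z) c hca (f.injective hz)
  have h2 : EpsUnstable X x := by
    refine h1.transfer (U := univ) (V := univ) univ_mem univ_mem
      ((Homeomorph.Set.univ K.space).trans (f.symm.trans (Homeomorph.Set.univ X).symm)) ?_
    exact f.symm_apply_apply x
  exact (h2.transfer hU hV e he).pseudoUnstable

end Pool.Agent.Results.MP_a217de_gt.PolyhedraLocal
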