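import Pool.Agent.W821.TB.Base

/-!
# Solutions of the planar `n`-body problem near a compact orbit follow it during one period
-/

set_option autoImplicit false

namespace Pool.Agent.Helper83.Transport

open Set Filter Topology Pool.Agent.W821.TB

variable {n : ℕ} {m : Fin n → ℝ}

/-- The Newtonian vector field is uniformly Lipschitz on small balls around a compact set. -/
theorem uniform_lipschitz {γ : Set (Ph n)} (hγ : IsCompact γ)
    (hne : ∀ z ∈ γ, ∀ a b, a ≠ b → z.1 a ≠ z.1 b) :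
    ∃ K : NNReal, ∃ ρ : ℝ, 0 < ρ ∧ ∀ p ∈ γ, LipschitzOnWith K (vf m) (Metric.ball p ρ) := by
  classical
  have h1 : ∀ p : γ, ∃ K : NNReal, ∃ U : Set (Ph n), IsOpen U ∧ (p : Ph n) ∈ U ∧
      LipschitzOnWith K (vf m) U := by
    rintro ⟨p, hp⟩
    obtain ⟨K, s, hs, hL⟩ := (contDiffAt_vf (m := m) (hne p hp)).exists_lipschitzOnWith
    obtain ⟨U, hUs, hU, hpU⟩ := mem_nhds_iff.1 hs
    exact ⟨K, U, hU, hpU, hL.mono hUs⟩
  choose K U hU hpU hL using h1
  obtain ⟨T, hT⟩ := hγ.elim_finite_subcover U hU (fun p hp => mem_iUnion.2 ⟨⟨p, hp⟩, hpU ⟨p, hp⟩⟩)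
  have hT' : γ ⊆ ⋃ i : T, U i := by
    intro p hp
    obtain ⟨i, hi, hpi⟩ := mem_iUnion₂.1 (hT hp)
    exact mem_iUnion.2 ⟨⟨i, hi⟩, hpi⟩
  obtain ⟨ρ, hρ, hball⟩ := lebesgue_number_lemma_of_metric hγ (fun i : T => hU i) hT'
  refine ⟨T.sup K, ρ, hρ, fun p hp => ?_⟩
  obtain ⟨i, hi⟩ := hball p hp
  exact ((hL i).mono hi).weaken (Finset.le_sup i.2)

/-- Solutions which are close to the orbit of the periodic solution `x` at the time `t₀` follow it
during one period. -/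
theorem transport {x : ℝ → Ph n} (hx : IsSol m Set.univ x) {P : ℝ} (hP : 0 < P)
    (hγ : IsCompact (Set.range x)) {ε : ℝ} (hε : 0 < ε) :
    ∃ δ : ℝ, 0 < δ ∧ ∀ y : ℝ → Ph n, IsSol m (Ici 0) y → ∀ t₀ : ℝ, 0 ≤ t₀ → ∀ s : ℝ,
      dist (y t₀) (x s) < δ → ∀ t ∈ Icc t₀ (t₀ + P), dist (y t) (x (t + (s - t₀))) < ε := by
  obtain ⟨K, ρ, hρ, hK⟩ := uniform_lipschitz (m := m) hγ (by
    rintro z ⟨t, rfl⟩ a b hab
    exact (hx.mem t).1 a b hab)
  set r : ℝ := min ρ ε with hr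
  have hr0 : 0 < r := lt_min hρ hε
  have hexp : 0 < Real.exp (K * P) := Real.exp_pos _
  refine ⟨r / 2 / Real.exp (K * P), by positivity, ?_⟩
  intro y hy t₀ ht₀ s hs
  set δ : ℝ := r / 2 / Real.exp (K * P) with hδ
  have hδ0 : 0 < δ := by positivity
  have hδr : δ < r := by
    have h1 : 1 ≤ Real.exp (K * P) := Real.one_le_exp (by positivity)
    have h2 : δ ≤ r / 2 := div_le_self (by positivity) h1
    linarith
  let g : ℝ → Ph n := fun t => x (t + (s - t₀))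
  have hg : IsSol m Set.univ g := hx.shift (s - t₀)
  have hyc : ContinuousOn y (Ici 0) := fun t ht => (hy t ht).2.continuousWithinAt
  have hyc' : ContinuousOn y (Icc t₀ (t₀ + P)) :=
    hyc.mono (fun t ht => mem_Ici.2 (ht₀.trans ht.1))
  have hD : ContinuousOn (fun t => dist (y t) (g t)) (Icc t₀ (t₀ + P)) :=
    continuous_dist.comp_continuousOn (hyc'.prodMk hg.continuous.continuousOn)
  have claim : ∀ t ∈ Icc t₀ (t₀ + P), dist (y t) (g t) < r := by
    by_contra hcon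
    push Not at hcon
    obtain ⟨t₁, ht₁, hd₁⟩ := hcon
    have hA : IsCompact {t ∈ Icc t₀ (t₀ + P) | r ≤ dist (y t) (g t)} := by
      have : IsClosed ({t ∈ Icc t₀ (t₀ + P) | r ≤ dist (y t) (g t)}) := by
        exact hD.preimage_isClosed_of_isClosed isClosed_Icc (isClosed_Ici (a := r))
      exact isCompact_Icc.of_isClosed_subset this (fun t ht => ht.1)
    obtain ⟨t₂, ht₂, hleast⟩ := hA.exists_isLeast ⟨t₁, ht₁, hd₁⟩
    have hbefore : ∀ t ∈ Ico t₀ t₂, dist (y t) (g t) < r := by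
      intro t ht
      by_contra hc
      have : t₂ ≤ t := hleast ⟨⟨ht.1, ht.2.le.trans ht₂.1.2⟩, not_lt.1 hc⟩
      exact absurd ht.2 (not_lt.2 this)
    have hgron := dist_le_of_trajectories_ODE_of_mem (v := fun _ => vf m)
      (s := fun t => Metric.ball (g t) ρ) (K := K) (f := y) (g := g) (a := t₀) (b := t₂) (δ := δ)
      (fun t _ => hK _ ⟨_, rfl⟩)
      (hyc.mono fun t ht => mem_Ici.2 (ht₀.trans ht.1))
      (fun t ht => (hy t (ht₀.trans ht.1)).2.mono (Ici_subset_Ici.2 (ht₀.trans ht.1)))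
      (fun t ht => Metric.mem_ball.2 ((hbefore t ht).trans_le (min_le_left _ _)))
      hg.continuous.continuousOn
      (fun t _ => (hg.hasDerivAt t).hasDerivWithinAt)
      (fun t _ => Metric.mem_ball_self hρ)
      (by
        have : g t₀ = x s := by simp only [g]; congr 1; ring
        rw [this]; exact hs.le) t₂ ⟨ht₂.1.1, le_rfl⟩
    have h3 : Real.exp (K * (t₂ - t₀)) ≤ Real.exp (K * P) := by
      apply Real.exp_le_exp.2
      have : t₂ - t₀ ≤ P := by linarith [ht₂.1.2]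
      exact mul_le_mul_of_nonneg_left this K.2
    have h4 : δ * Real.exp (K * (t₂ - t₀)) ≤ r / 2 := by
      calc δ * Real.exp (K * (t₂ - t₀)) ≤ δ * Real.exp (K * P) :=
            mul_le_mul_of_nonneg_left h3 hδ0.le
        _ = r / 2 := by rw [hδ]; field_simp
    have h5 := ht₂.2
    linarith
  intro t ht
  exact (claim t ht).trans_le (min_le_right _ _)

/-- Uniform closeness of a continuous function near a compact set. -/
theorem uniform_near {Z : Type*} [MetricSpace Z] {γ O : Set Z} (hγ : IsCompact γ) (hO : IsOpen O)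
    (hγO : γ ⊆ O) {w : Z → ℂ} (hw : ContinuousOn w O) {c : ℝ} (hc : 0 < c) :
    ∃ ε : ℝ, 0 < ε ∧ ∀ p ∈ γ, ∀ z, dist z p < ε → z ∈ O ∧ ‖w z - w p‖ < c := by
  have h1 : ∀ p : γ, ∃ U : Set Z, IsOpen U ∧ (p : Z) ∈ U ∧ U ⊆ O ∧
      ∀ z ∈ U, ‖w z - w p‖ < c / 2 := by
    rintro ⟨p, hp⟩
    have hcont : ContinuousAt w p := (hw p (hγO hp)).continuousAt (hO.mem_nhds (hγO hp))
    have h2 : ∀ᶠ z in 𝓝 p, dist (w z) (w p) < c / 2 :=
      (Metric.tendsto_nhds.1 hcont) (c / 2) (by positivity)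
    obtain ⟨U, hU1, hU2, hU3⟩ := mem_nhds_iff.1 (Filter.inter_mem h2 (hO.mem_nhds (hγO hp)))
    refine ⟨U, hU2, hU3, fun z hz => (hU1 hz).2, fun z hz => ?_⟩
    have := (hU1 hz).1
    rw [← dist_eq_norm]
    exact this
  choose U hU hpU hUO hUc using h1
  obtain ⟨ε, hε, hball⟩ := lebesgue_number_lemma_of_metric hγ hU
    (fun p hp => mem_iUnion.2 ⟨⟨p, hp⟩, hpU ⟨p, hp⟩⟩)
  refine ⟨ε, hε, fun p hp z hz => ?_⟩
  obtain ⟨i, hi⟩ := hball p hp
  have hz' : z ∈ U i := hi (Metric.mem_ball.2 hz)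
  have hp' : p ∈ U i := hi (Metric.mem_ball_self hε)
  refine ⟨hUO i hz', ?_⟩
  have e : w z - w p = (w z - w i) - (w p - w i) := by ring
  rw [e]
  have := norm_sub_le (w z - w i) (w p - w i)
  have h1 := hUc i z hz'
  have h2 := hUc i p hp'
  linarith

/-- The argument is small near `1`. -/
theorem arg_small {η : ℝ} (hη : 0 < η) : ∃ c : ℝ, 0 < c ∧ c ≤ 1 ∧ ∀ w : ℂ, ‖w - 1‖ < c →
    |Complex.arg w| < η := by
  have h := Complex.continuousAt_arg (x := 1) Complex.one_mem_slitPlane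
  have h2 : ∀ᶠ w in 𝓝 (1 : ℂ), dist (Complex.arg w) (Complex.arg 1) < η :=
    (Metric.tendsto_nhds.1 h) η hη
  obtain ⟨c, hc, hcb⟩ := Metric.eventually_nhds_iff.1 h2
  refine ⟨min c 1, lt_min hc one_pos, min_le_right _ _, fun w hw => ?_⟩
  have := hcb (y := w) (by rw [dist_eq_norm]; exact hw.trans_le (min_le_left _ _))
  simpa using this

end Pool.Agent.Helper83.Transport
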